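import Pool.Agent.Lib.MP_f82811_pr.OP.Defs

/-!
# OrderedPairs, module Closing

Proof of `closing`. `k` and `l` are not adjacent (otherwise `k = z` by `hleaf`, but `G.Adj k z`).
Let `J' e = if e = s(k, z) then J s(k, z) - J s(l, z) else if e = s(l, z) then 0 else J e`. Then
`redm (mat G J) k l = mat G J'` (case distinction; `mat G J l u = 0` for `u ≠ z`), `0 ≤ J' ≤ J` on the
edges, and `J' e ≠ J e` only for the two bridges. `gap_bridges` (Bridge.lean) gives
`gap (gibbs G J) ≤ gap (gibbs G J')`, and `gibbs G J = normalize (weight G J)`, `weight_eq_W`.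

`mat_top`: on the complete graph, `mat ⊤ J u v = if u = v then 0 else J s(u, v)`.
`mat_update`: changing one coupling adds a multiple of `pairMat`.
-/

set_option autoImplicit false

namespace Pool.Agent.Lib.MP_f82811_pr.OP

open Finset HT

variable {V : Type*} [Fintype V] [DecidableEq V]

omit [DecidableEq V] in
theorem lam_mat (G : SimpleGraph V) [DecidableEq V] [DecidableRel G.Adj] (J : Sym2 V → ℝ) :
    lam (mat G J) = (Fintype.card V : ℝ) * gap (gibbs G J) := by
  unfold lam gibbs
  rw [weight_eq_W]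
  rfl

/-- The couplings after closing. -/
noncomputable def closingJ (J : Sym2 V → ℝ) (k l z : V) (e : Sym2 V) : ℝ :=
  if e = s(k, z) then J s(k, z) - J s(l, z) else if e = s(l, z) then 0 else J e

omit [Fintype V] in
theorem closing_redm (G : SimpleGraph V) [DecidableRel G.Adj] {J : Sym2 V → ℝ}
    {k l z : V} (hkl : k ≠ l) (hkz : G.Adj k z) (hlz : G.Adj l z)
    (hleaf : ∀ u, G.Adj l u → u = z) :
    redm (mat G J) k l = mat G (closingJ J k l z) := by
  have hkz' := hkz.ne
  have hlz' := hlz.ne
  have hJl : closingJ J k l z s(l, z) = 0 := by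
    unfold closingJ
    rw [if_neg, if_pos rfl]
    rw [Sym2.eq_iff]
    rintro (⟨h, _⟩ | ⟨h, _⟩)
    · exact hkl h.symm
    · exact hlz' h
  have hJk : closingJ J k l z s(k, z) = J s(k, z) - J s(l, z) := by
    unfold closingJ
    rw [if_pos rfl]
  have hJo : ∀ u v, s(u, v) ≠ s(k, z) → s(u, v) ≠ s(l, z) →
      closingJ J k l z s(u, v) = J s(u, v) := by
    intro u v h1 h2
    unfold closingJ
    rw [if_neg h1, if_neg h2]
  have hl : ∀ v, mat G (closingJ J k l z) l v = 0 := by
    intro v
    unfold mat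
    by_cases h : G.Adj l v
    · rw [if_pos h]
      have := hleaf v h
      subst this
      exact hJl
    · rw [if_neg h]
  have hsymm : ∀ u v, mat G (closingJ J k l z) u v = mat G (closingJ J k l z) v u := by
    intro u v
    unfold mat
    rw [Sym2.eq_swap]
    by_cases h : G.Adj u v
    · rw [if_pos h, if_pos h.symm]
    · rw [if_neg h, if_neg fun h' => h h'.symm]
  have hsymmJ : ∀ u v, mat G J u v = mat G J v u := by
    intro u v
    unfold mat
    rw [Sym2.eq_swap]
    by_cases h : G.Adj u v
    · rw [if_pos h, if_pos h.symm]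
    · rw [if_neg h, if_neg fun h' => h h'.symm]
  have hk : ∀ v, v ≠ l → v ≠ k → mat G J k v - mat G J l v = mat G (closingJ J k l z) k v := by
    intro v hvl hvk
    by_cases hvz : v = z
    · subst hvz
      unfold mat
      rw [if_pos hkz, if_pos hlz, if_pos hkz, hJk]
    · have h1 : mat G J l v = 0 := by
        unfold mat
        rw [if_neg fun h => hvz (hleaf v h)]
      rw [h1, sub_zero]
      unfold mat
      rw [hJo]
      · rw [Ne, Sym2.eq_iff]
        rintro (⟨_, h⟩ | ⟨h, _⟩)
        · exact hvz h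
        · exact hkz' h
      · rw [Ne, Sym2.eq_iff]
        rintro (⟨h, _⟩ | ⟨_, h⟩)
        · exact hkl h
        · exact hvl h
  funext u v
  unfold redm
  by_cases hul : u = l
  · subst hul
    rw [if_pos (Or.inl rfl), hl]
  by_cases hvl : v = l
  · subst hvl
    rw [if_pos (Or.inr (Or.inl rfl)), hsymm, hl]
  by_cases huv : u = v
  · subst huv
    rw [if_pos (Or.inr (Or.inr rfl))]
    unfold mat
    rw [if_neg (G.irrefl)]
  rw [if_neg (by tauto)]
  by_cases huk : u = k
  · subst huk
    rw [if_pos rfl]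
    exact hk v hvl (Ne.symm huv)
  rw [if_neg huk]
  by_cases hvk : v = k
  · subst hvk
    rw [if_pos rfl, hsymmJ u v, hsymmJ u l, hsymm u v]
    exact hk u hul huk
  rw [if_neg hvk]
  unfold mat
  rw [hJo]
  · rw [Ne, Sym2.eq_iff]
    rintro (⟨h, _⟩ | ⟨_, h⟩)
    · exact huk h
    · exact hvk h
  · rw [Ne, Sym2.eq_iff]
    rintro (⟨h, _⟩ | ⟨_, h⟩)
    · exact hul h
    · exact hvl h

theorem closing [Nonempty V] (G : SimpleGraph V) [DecidableRel G.Adj] {J : Sym2 V → ℝ}
    (hJ : ∀ e ∈ G.edgeSet, 0 ≤ J e) {k l z : V} (hkl : k ≠ l) (hkz : G.Adj k z)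
    (hlz : G.Adj l z) (hk : G.IsBridge s(k, z)) (hl : G.IsBridge s(l, z))
    (hleaf : ∀ u, G.Adj l u → u = z) (hle : J s(l, z) ≤ J s(k, z)) :
    lam (mat G J) ≤ lam (redm (mat G J) k l) := by
  rw [closing_redm G hkl hkz hlz hleaf, lam_mat, lam_mat]
  refine mul_le_mul_of_nonneg_left ?_ (Nat.cast_nonneg _)
  have hJl : 0 ≤ J s(l, z) := hJ _ hlz
  apply gap_bridges
  · intro e he
    unfold closingJ
    split_ifs
    · linarith
    · exact le_rfl
    · exact hJ e he
  · intro e he
    unfold closingJ
    split_ifs with h1 h2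
    · rw [h1]
      linarith
    · rw [h2]
      exact hJl
    · exact le_rfl
  · intro e he hne
    by_cases h1 : e = s(k, z)
    · rw [h1]
      exact hk
    · by_cases h2 : e = s(l, z)
      · rw [h2]
        exact hl
      · exfalso
        apply hne
        unfold closingJ
        rw [if_neg h1, if_neg h2]

omit [Fintype V] in
theorem mat_top (J : Sym2 V → ℝ) (u v : V) :
    mat (⊤ : SimpleGraph V) J u v = if u = v then 0 else J s(u, v) := by
  unfold mat
  by_cases h : u = v
  · rw [if_pos h, if_neg]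
    rw [SimpleGraph.top_adj]
    exact fun h' => h' h
  · rw [if_neg h, if_pos]
    rw [SimpleGraph.top_adj]
    exact h

omit [Fintype V] in
theorem mat_update (J : Sym2 V → ℝ) {k l : V} (hkl : k ≠ l) (x : ℝ) :
    mat (⊤ : SimpleGraph V) (Function.update J s(k, l) x) =
      fun u v => mat (⊤ : SimpleGraph V) J u v + (x - J s(k, l)) * pairMat k l u v := by
  funext u v
  rw [mat_top, mat_top]
  unfold pairMat
  by_cases huv : u = v
  · subst huv
    rw [if_pos rfl, if_pos rfl, if_neg]
    · ring
    · rintro (⟨h1, h2⟩ | ⟨h1, h2⟩)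
      · exact hkl (h1.symm.trans h2)
      · exact hkl (h2.symm.trans h1)
  · rw [if_neg huv, if_neg huv]
    by_cases h : s(u, v) = s(k, l)
    · rw [h, Function.update_self, if_pos (Sym2.eq_iff.1 h)]
      ring
    · rw [Function.update_of_ne h, if_neg fun h' => h (Sym2.eq_iff.2 h')]
      ring

end Pool.Agent.Lib.MP_f82811_pr.OP
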