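import Pool.Agent.Lib.MP_f82811_pr.OP.Defs

/-!
# OrderedPairs, module Cont

Proof. `HT.gap_ratio`: if `w ≤ c w'` and `w' ≤ c w` pointwise then `gap w ≤ c^2 gap w'`. Here
`W (A s) σ = exp (en (A s) σ - en (A t) σ) * W (A t) σ`, and
`|en (A s) σ - en (A t) σ| ≤ δ(s) := (∑ u, ∑ v, |A s u v - A t u v|) / 2` for all `σ` (the spins have
absolute value one), so with `c = exp (δ s)`:
`lam (A s) ≤ exp (2 δ s) * lam (A t)` and `lam (A t) ≤ exp (2 δ s) * lam (A s)`. As `s → t` within
`S`, `δ s → 0` by continuity. Squeeze, as in `HT.path_mono_abs` (HT/Path.lean, block `hcont`).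
-/

set_option autoImplicit false

namespace Pool.Agent.Lib.MP_f82811_pr.OP

open Finset HT

variable {V : Type*} [Fintype V] [DecidableEq V]

omit [Fintype V] [DecidableEq V] in
theorem Cont_sp_abs (u : V) (σ : V → Bool) : |sp u σ| = 1 := by
  unfold sp spin
  split_ifs <;> simp

omit [DecidableEq V] in
theorem Cont_en_sub (A B : V → V → ℝ) (σ : V → Bool) :
    en A σ - en B σ ≤ (∑ u, ∑ v, |A u v - B u v|) / 2 := by
  unfold en
  rw [← sub_div, ← Finset.sum_sub_distrib]
  refine div_le_div_of_nonneg_right ?_ (by norm_num)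
  refine Finset.sum_le_sum fun u _ => ?_
  rw [← Finset.sum_sub_distrib]
  refine Finset.sum_le_sum fun v _ => ?_
  have h1 : A u v * sp u σ * sp v σ - B u v * sp u σ * sp v σ
      = (A u v - B u v) * (sp u σ * sp v σ) := by ring
  rw [h1]
  calc (A u v - B u v) * (sp u σ * sp v σ) ≤ |(A u v - B u v) * (sp u σ * sp v σ)| := le_abs_self _
    _ = |A u v - B u v| := by rw [abs_mul, abs_mul, Cont_sp_abs, Cont_sp_abs]; ring

theorem Cont_lam_le [Nonempty V] {A B : V → V → ℝ} (hB : Coup B) :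
    lam A ≤ Real.exp ((∑ u, ∑ v, |A u v - B u v|) / 2) ^ 2 * lam B := by
  have h1 : ∀ X Y : V → V → ℝ, ∀ σ, W X σ ≤
      Real.exp ((∑ u, ∑ v, |X u v - Y u v|) / 2) * W Y σ := by
    intro X Y σ
    unfold W
    rw [← Real.exp_add]
    apply Real.exp_le_exp.2
    linarith [Cont_en_sub X Y σ]
  have h2 : gap (normalize (W A)) ≤
      Real.exp ((∑ u, ∑ v, |A u v - B u v|) / 2) ^ 2 * gap (normalize (W B)) := by
    apply gap_ratio (W_pos A) W_neg (W_pos B) W_neg (W_fkg hB) (Real.exp_pos _)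
    · exact h1 A B
    · intro σ
      have h3 := h1 B A σ
      have h4 : (∑ u, ∑ v, |B u v - A u v|) = ∑ u, ∑ v, |A u v - B u v| :=
        Finset.sum_congr rfl fun u _ => Finset.sum_congr rfl fun v _ => abs_sub_comm _ _
      rwa [h4] at h3
  unfold lam
  calc (Fintype.card V : ℝ) * gap (normalize (W A))
      ≤ (Fintype.card V : ℝ) * (Real.exp ((∑ u, ∑ v, |A u v - B u v|) / 2) ^ 2 *
          gap (normalize (W B))) := mul_le_mul_of_nonneg_left h2 (Nat.cast_nonneg _)
    _ = _ := by ring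

theorem cont_path [Nonempty V] {A : ℝ → V → V → ℝ} {S : Set ℝ} (hA : ∀ t ∈ S, Coup (A t))
    (hc : ∀ u v, ContinuousOn (fun t => A t u v) S) :
    ContinuousOn (fun t => lam (A t)) S := by
  intro t ht
  have hδ : Filter.Tendsto (fun s => Real.exp ((∑ u, ∑ v, |A s u v - A t u v|) / 2) ^ 2)
      (nhdsWithin t S) (nhds 1) := by
    have h1 : ∀ u v, Filter.Tendsto (fun s => |A s u v - A t u v|) (nhdsWithin t S) (nhds 0) := by
      intro u v
      have h2 : Filter.Tendsto (fun s => A s u v) (nhdsWithin t S) (nhds (A t u v)) := hc u v t ht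
      have h3 := (h2.sub_const (A t u v)).abs
      rwa [sub_self, abs_zero] at h3
    have h4 : Filter.Tendsto (fun s => (∑ u, ∑ v, |A s u v - A t u v|) / 2)
        (nhdsWithin t S) (nhds 0) := by
      have h5 : Filter.Tendsto (fun s => ∑ u, ∑ v, |A s u v - A t u v|)
          (nhdsWithin t S) (nhds (∑ _u : V, ∑ _v : V, (0 : ℝ))) :=
        tendsto_finset_sum _ fun u _ => tendsto_finset_sum _ fun v _ => h1 u v
      have h6 := h5.div_const 2
      simpa using h6
    have h7 := ((Real.continuous_exp.tendsto 0).comp h4).pow 2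
    simpa using h7
  have hup : Filter.Tendsto (fun s => Real.exp ((∑ u, ∑ v, |A s u v - A t u v|) / 2) ^ 2 *
      lam (A t)) (nhdsWithin t S) (nhds (lam (A t))) := by
    have := hδ.mul_const (lam (A t))
    rwa [one_mul] at this
  have hlo : Filter.Tendsto (fun s => (Real.exp ((∑ u, ∑ v, |A s u v - A t u v|) / 2) ^ 2)⁻¹ *
      lam (A t)) (nhdsWithin t S) (nhds (lam (A t))) := by
    have := (hδ.inv₀ one_ne_zero).mul_const (lam (A t))
    rwa [inv_one, one_mul] at this
  refine tendsto_of_tendsto_of_tendsto_of_le_of_le' hlo hup ?_ ?_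
  · filter_upwards [self_mem_nhdsWithin] with s hs
    have h1 := Cont_lam_le (A := A t) (hA s hs)
    have h4 : (∑ u, ∑ v, |A t u v - A s u v|) = ∑ u, ∑ v, |A s u v - A t u v| :=
      Finset.sum_congr rfl fun u _ => Finset.sum_congr rfl fun v _ => abs_sub_comm _ _
    rw [h4] at h1
    have h2 : 0 < Real.exp ((∑ u, ∑ v, |A s u v - A t u v|) / 2) ^ 2 := by positivity
    rw [inv_mul_le_iff₀ h2]
    exact h1
  · filter_upwards [self_mem_nhdsWithin] with s hs
    exact Cont_lam_le (A := A s) (hA t ht)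

end Pool.Agent.Lib.MP_f82811_pr.OP
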