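import Pool.Agent.Lib.MP_f82811_pr.OP.Defs

/-!
# OrderedPairs, module Slope

Proof. Put `w = W (A t)`, `w_z = W (A z)`, `lam = lam (A t)`. For every `z`, `poincare_of_gap` for `w_z`
and the odd function `f` (mean zero: `ip_odd_even W_neg`) and `dir_le_of_eigen` (Compare.lean) give
`2 lam (A z) * ip w_z f f ≤ dir w_z f ≤ 2 (lam * ip w_z f f - ∑ w_z * defect w f)`, so
`lam (A z) - lam ≤ - (∑ σ, w_z σ * defect w f σ) / ip w_z f f`.
(`0 < ip w_z f f` because `f ≠ 0`, by `hone`.) The function `g z = ∑ σ, w_z σ * defect w f σ` vanishes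
at `z = t` (`HT.sum_defect_zero`) and has derivative `∑ σ, w σ * (en B σ * defect w f σ)` at `t`
(`W A = exp (en A)`, and `en (A z) σ` has derivative `en B σ`). `ip w_z f f` is continuous at `t` with
value `1`. So `- g z / ((z - t) * ip w_z f f)` tends to `- ∑ σ, w σ * (en B σ * defect w f σ) < r` as
`z → t+`, and it bounds `slope (fun s => lam (A s)) t z` from above for `z > t`.
-/

set_option autoImplicit false

namespace Pool.Agent.Lib.MP_f82811_pr.OP

open Finset HT

variable {V : Type*} [Fintype V] [DecidableEq V]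

omit [DecidableEq V] in
private theorem slope_en {A : ℝ → V → V → ℝ} {B : V → V → ℝ} {t : ℝ}
    (hd : ∀ u v, HasDerivAt (fun s => A s u v) (B u v) t) (σ : V → Bool) :
    HasDerivAt (fun s => en (A s) σ) (en B σ) t := by
  unfold en
  refine HasDerivAt.div_const ?_ 2
  refine HasDerivAt.fun_sum fun u _ => HasDerivAt.fun_sum fun v _ => ?_
  exact ((hd u v).mul_const _).mul_const _

omit [DecidableEq V] in
private theorem slope_W {A : ℝ → V → V → ℝ} {B : V → V → ℝ} {t : ℝ}
    (hd : ∀ u v, HasDerivAt (fun s => A s u v) (B u v) t) (σ : V → Bool) :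
    HasDerivAt (fun s => W (A s) σ) (W (A t) σ * en B σ) t := by
  unfold W
  exact (slope_en hd σ).exp

theorem slope_path [Nonempty V] {A : ℝ → V → V → ℝ} {B : V → V → ℝ} {t : ℝ}
    (hd : ∀ u v, HasDerivAt (fun s => A s u v) (B u v) t) {f : (V → Bool) → ℝ}
    (hodd : Odd' f) (hone : ip (W (A t)) f f = 1)
    (heig : ceSum (W (A t)) f = fun σ => ((Fintype.card V : ℝ) - lam (A t)) * f σ) {r : ℝ}
    (hr : -∑ σ, W (A t) σ * (en B σ * defect (W (A t)) f σ) < r) :
    ∀ᶠ z in nhdsWithin t (Set.Ioi t), slope (fun s => lam (A s)) t z < r := by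
  obtain ⟨D0, hD0⟩ : ∃ D0 : (V → Bool) → ℝ, D0 = defect (W (A t)) f := ⟨_, rfl⟩
  rw [← hD0] at hr
  -- the basic bound
  have hpos : ∀ z, 0 < ip (W (A z)) f f := by
    intro z
    have h3 : ∃ σ, f σ ≠ 0 := by
      by_contra hcon
      push Not at hcon
      have : ip (W (A t)) f f = 0 := by
        unfold ip
        exact Finset.sum_eq_zero fun σ _ => by rw [hcon σ]; ring
      rw [hone] at this
      exact one_ne_zero this
    obtain ⟨σ, hσ⟩ := h3
    exact ip_self_pos (W_pos (A z)) hσ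
  have hbase : ∀ z, (lam (A z) - lam (A t)) * ip (W (A z)) f f ≤ -∑ σ, W (A z) σ * D0 σ := by
    intro z
    have h1 := poincare_of_gap (W_pos (A z)) (g := f) (ip_odd_even W_neg hodd (fun _ => rfl))
    have h2 := dir_le_of_eigen (W_pos (A z)) heig
    rw [← hD0] at h2
    have h3 : 2 * (Fintype.card V : ℝ) * gap (normalize (W (A z))) = 2 * lam (A z) := by
      unfold lam
      ring
    rw [h3] at h1
    linarith
  -- the derivative of the defect sum
  have hder : HasDerivAt (fun z : ℝ => ∑ σ, W (A z) σ * D0 σ)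
      (∑ σ, W (A t) σ * (en B σ * D0 σ)) t := by
    have h1 : ∀ σ ∈ (univ : Finset (V → Bool)),
        HasDerivAt (fun z : ℝ => W (A z) σ * D0 σ) (W (A t) σ * (en B σ * D0 σ)) t := by
      intro σ _
      refine ((slope_W hd σ).mul_const (D0 σ)).congr_deriv ?_
      ring
    exact HasDerivAt.fun_sum h1
  have hz0 : ∑ σ, W (A t) σ * D0 σ = 0 := by
    rw [hD0]
    exact sum_defect_zero (W_pos (A t)) f
  have hip : Filter.Tendsto (fun z : ℝ => ip (W (A z)) f f) (nhdsWithin t (Set.Ioi t))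
      (nhds 1) := by
    have h1 : HasDerivAt (fun z : ℝ => ip (W (A z)) f f)
        (∑ σ, W (A t) σ * en B σ * (f σ * f σ)) t := by
      unfold ip
      exact HasDerivAt.fun_sum fun σ _ => (slope_W hd σ).mul_const _
    have h2 := h1.continuousAt.tendsto
    rw [hone] at h2
    exact h2.mono_left nhdsWithin_le_nhds
  have hsl : Filter.Tendsto (slope (fun z : ℝ => ∑ σ, W (A z) σ * D0 σ) t)
      (nhdsWithin t (Set.Ioi t)) (nhds (∑ σ, W (A t) σ * (en B σ * D0 σ))) := by
    have h1 := hder.hasDerivWithinAt (s := Set.Ioi t)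
    rwa [hasDerivWithinAt_iff_tendsto_slope' (by simp)] at h1
  have hlim : Filter.Tendsto (fun z => -slope (fun z : ℝ => ∑ σ, W (A z) σ * D0 σ) t z /
      ip (W (A z)) f f) (nhdsWithin t (Set.Ioi t))
      (nhds (-(∑ σ, W (A t) σ * (en B σ * D0 σ)) / 1)) :=
    hsl.neg.div hip one_ne_zero
  rw [div_one] at hlim
  have hev := hlim.eventually (gt_mem_nhds hr)
  filter_upwards [hev, self_mem_nhdsWithin] with z hz1 hz2
  have hz3 : t < z := hz2
  refine lt_of_le_of_lt ?_ hz1
  have hzt : 0 < z - t := sub_pos.2 hz3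
  rw [slope_def_field, slope_def_field, hz0, sub_zero, le_div_iff₀ (hpos z), div_mul_eq_mul_div,
    ← neg_div]
  exact div_le_div_of_nonneg_right (hbase z) hzt.le

/-- The energy is a sum over pairs. -/
theorem en_defect_sum (w f : (V → Bool) → ℝ) (B : V → V → ℝ) :
    ∑ σ, w σ * (en B σ * defect w f σ) = (∑ u, ∑ v, B u v * pd w f u v) / 2 := by
  have h1 : ∀ σ : V → Bool, w σ * (en B σ * defect w f σ) =
      (∑ u, ∑ v, B u v * (w σ * (sp u σ * sp v σ * defect w f σ))) / 2 := by
    intro σ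
    unfold en
    rw [div_mul_eq_mul_div, mul_div_assoc']
    congr 1
    rw [Finset.sum_mul, Finset.mul_sum]
    refine Finset.sum_congr rfl fun u _ => ?_
    rw [Finset.sum_mul, Finset.mul_sum]
    exact Finset.sum_congr rfl fun v _ => by ring
  rw [Finset.sum_congr rfl fun σ _ => h1 σ, ← Finset.sum_div, Finset.sum_comm]
  congr 1
  refine Finset.sum_congr rfl fun u _ => ?_
  rw [Finset.sum_comm]
  refine Finset.sum_congr rfl fun v _ => ?_
  unfold pd
  rw [Finset.mul_sum]

end Pool.Agent.Lib.MP_f82811_pr.OP
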