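import Pool.Agent.Lib.MP_f82811_pr.OP.PairB
import Pool.Agent.Lib.MP_f82811_pr.OP.Cont
import Pool.Agent.Lib.MP_f82811_pr.OP.Slope

/-!
# OrderedPairs, module Crit

Proof of `criterion`. Let `A c = fun u v => A u v + c * pairMat k l u v` and `φ c = lam (A c)`, `c ≥ 0`,
`L = lam (redm A k l)`. `redm (A c) k l = redm A k l` for all `c`. `A c` is `Coup`. `φ` is continuous on
`[0, ∞)` (`cont_path`). For `c ≥ 0` let `f` be the eigenfunction of `exists_slow`; by `en_defect_sum`
with `B = pairMat k l` the sum `∑ W (en B) defect = pd (W (A c)) f k l` (`pd` is symmetric in `k, l`),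
which is at least `- 2 max 0 (φ c - L)` by `pair_bound'`. So by `slope_path`: for every `r` with
`2 max 0 (φ c - L) < r` eventually `slope φ c z < r`.
Step 1: `φ c ≤ L` for all `c ≥ 0`. For `ε > 0` use `image_le_of_liminf_slope_right_lt_deriv_boundary`
(Mathlib) with `f = φ`, `f' c = 2 max 0 (φ c - L)` and `B c = L + ε * exp (3 c)`: if `φ c = B c` then
`f' c = 2 ε exp (3 c) < 3 ε exp (3 c) = B' c`. Let `ε → 0`.
Step 2: now `2 max 0 (φ c - L) = 0`, so for every `r > 0` eventually `slope φ c z < r`;
`image_le_of_liminf_slope_right_le_deriv_boundary` on `[x, y]` with constant `B = φ x`.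
-/

set_option autoImplicit false

namespace Pool.Agent.Lib.MP_f82811_pr.OP

open Finset HT

variable {V : Type*} [Fintype V] [DecidableEq V]

omit [Fintype V] in
/-- The couplings with the pair `k, l` raised by `c`. -/
theorem Crit_coup {A : V → V → ℝ} (hA : Coup A) {k l : V} (hkl : k ≠ l) {c : ℝ} (hc : 0 ≤ c) :
    Coup (fun u v => A u v + c * pairMat k l u v) where
  symm u v := by
    rw [hA.symm u v, (coup_pairMat hkl).symm u v]
  nonneg u v := add_nonneg (hA.nonneg u v) (mul_nonneg hc ((coup_pairMat hkl).nonneg u v))
  diag v := by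
    rw [hA.diag v, (coup_pairMat hkl).diag v]
    simp

omit [Fintype V] in
theorem Crit_redm (A : V → V → ℝ) {k l : V} (hkl : k ≠ l) (c : ℝ) :
    redm (fun u v => A u v + c * pairMat k l u v) k l = redm A k l := by
  funext u v
  unfold redm
  by_cases h1 : u = l ∨ v = l ∨ u = v
  · rw [if_pos h1, if_pos h1]
  · rw [if_neg h1, if_neg h1]
    push Not at h1
    obtain ⟨hul, hvl, huv⟩ := h1
    by_cases h2 : u = k
    · subst h2
      rw [if_pos rfl, if_pos rfl]
      have a1 : pairMat u l u v = 0 := by
        unfold pairMat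
        rw [if_neg]
        rintro (⟨_, h⟩ | ⟨h, _⟩)
        · exact hvl h
        · exact hul h
      have a2 : pairMat u l l v = 0 := by
        unfold pairMat
        rw [if_neg]
        rintro (⟨h, _⟩ | ⟨_, h⟩)
        · exact hul h.symm
        · exact huv h.symm
      simp only [a1, a2]
      ring
    · rw [if_neg h2, if_neg h2]
      by_cases h3 : v = k
      · subst h3
        rw [if_pos rfl, if_pos rfl]
        have a1 : pairMat v l u v = 0 := by
          unfold pairMat
          rw [if_neg]
          rintro (⟨h, _⟩ | ⟨h, _⟩)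
          · exact h2 h
          · exact hul h
        have a2 : pairMat v l u l = 0 := by
          unfold pairMat
          rw [if_neg]
          rintro (⟨h, _⟩ | ⟨h, _⟩)
          · exact h2 h
          · exact hul h
        simp only [a1, a2]
        ring
      · rw [if_neg h3, if_neg h3]
        have a1 : pairMat k l u v = 0 := by
          unfold pairMat
          rw [if_neg]
          rintro (⟨h, _⟩ | ⟨h, _⟩)
          · exact h2 h
          · exact hul h
        simp only [a1]
        ring

theorem Crit_pd_comm (w f : (V → Bool) → ℝ) (k l : V) : pd w f k l = pd w f l k := by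
  unfold pd
  refine sum_congr rfl fun σ _ => ?_
  ring

theorem Crit_pd_sum (w f : (V → Bool) → ℝ) {k l : V} (hkl : k ≠ l) :
    (∑ u, ∑ v, pairMat k l u v * pd w f u v) / 2 = pd w f k l := by
  have e : ∀ u v : V, pairMat k l u v * pd w f u v =
      (if u = k then (if v = l then pd w f u v else 0) else 0) +
      (if u = l then (if v = k then pd w f u v else 0) else 0) := by
    intro u v
    unfold pairMat
    by_cases h1 : u = k <;> by_cases h2 : v = l <;> by_cases h3 : u = l <;>
      by_cases h4 : v = k <;> simp_all
  simp only [e, sum_add_distrib]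
  have e1 : (∑ u, ∑ v, (if u = k then (if v = l then pd w f u v else 0) else 0)) = pd w f k l := by
    rw [Finset.sum_eq_single k]
    · simp
    · intro b _ hb
      simp [hb]
    · simp
  have e2 : (∑ u, ∑ v, (if u = l then (if v = k then pd w f u v else 0) else 0)) = pd w f l k := by
    rw [Finset.sum_eq_single l]
    · simp
    · intro b _ hb
      simp [hb]
    · simp
  rw [e1, e2, Crit_pd_comm w f l k]
  ring

/-- The slope bound. -/
theorem Crit_slope [Nonempty V] {A : V → V → ℝ} (hA : Coup A) {k l : V} (hkl : k ≠ l) {t : ℝ}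
    (ht : 0 ≤ t) {r : ℝ}
    (hr : 2 * max 0 (lam (fun u v => A u v + t * pairMat k l u v) - lam (redm A k l)) < r) :
    ∀ᶠ z in nhdsWithin t (Set.Ioi t),
      slope (fun s => lam (fun u v => A u v + s * pairMat k l u v)) t z < r := by
  obtain ⟨f, hodd, hmono, hone, heig, _⟩ := exists_slow (Crit_coup hA hkl ht)
  refine slope_path (A := fun s u v => A u v + s * pairMat k l u v) (B := pairMat k l) (t := t)
    (fun u v => ?_) hodd hone heig ?_
  · have h1 := ((hasDerivAt_id t).mul_const (pairMat k l u v)).const_add (A u v)
    simpa using h1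
  · rw [en_defect_sum, Crit_pd_sum _ _ hkl]
    have h1 := pair_bound' (Crit_coup hA hkl ht) hkl hodd hmono hone heig
    rw [Crit_redm A hkl t] at h1
    linarith

theorem criterion [Nonempty V] {A : V → V → ℝ} (hA : Coup A) {k l : V} (hkl : k ≠ l)
    (h : lam A ≤ lam (redm A k l)) {x y : ℝ} (hx : 0 ≤ x) (hxy : x ≤ y) :
    lam (fun u v => A u v + y * pairMat k l u v) ≤
      lam (fun u v => A u v + x * pairMat k l u v) := by
  set φ : ℝ → ℝ := fun s => lam (fun u v => A u v + s * pairMat k l u v) with hφ
  set L : ℝ := lam (redm A k l) with hL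
  have hcont : ContinuousOn φ (Set.Ici 0) := by
    refine cont_path (A := fun s u v => A u v + s * pairMat k l u v) (fun t ht => ?_)
      (fun u v => ?_)
    · exact Crit_coup hA hkl ht
    · fun_prop
  have hsl : ∀ t, 0 ≤ t → ∀ r, 2 * max 0 (φ t - L) < r →
      ∃ᶠ z in nhdsWithin t (Set.Ioi t), slope φ t z < r := by
    intro t ht r hr
    exact (Crit_slope hA hkl ht hr).frequently
  have hφ0 : φ 0 = lam A := by
    rw [hφ]
    simp
  have step1 : ∀ c, 0 ≤ c → φ c ≤ L := by
    intro c hc
    have h1 : ∀ ε : ℝ, 0 < ε → φ c ≤ L + ε * Real.exp (3 * c) := by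
      intro ε hε
      have h2 := image_le_of_liminf_slope_right_lt_deriv_boundary (f := φ)
        (f' := fun t => 2 * max 0 (φ t - L)) (a := 0) (b := c)
        (hcont.mono Set.Icc_subset_Ici_self) (fun t ht r hr => hsl t ht.1 r hr)
        (B := fun t => L + ε * Real.exp (3 * t)) (B' := fun t => ε * (Real.exp (3 * t) * 3))
        (by
          rw [hφ0]
          have : 0 < ε * Real.exp (3 * 0) := by positivity
          linarith)
        (fun t => by
          have h3 : HasDerivAt (fun s : ℝ => 3 * s) 3 t := by
            simpa using (hasDerivAt_id t).const_mul (3 : ℝ)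
          exact ((h3.exp).const_mul ε).const_add L)
        (fun t _ ht => by
          have h4 : 0 < ε * Real.exp (3 * t) := by positivity
          have h5 : φ t - L = ε * Real.exp (3 * t) := by linarith
          rw [h5, max_eq_right h4.le]
          linarith)
      exact h2 (Set.right_mem_Icc.2 hc)
    refine le_of_forall_pos_le_add fun δ hδ => ?_
    have h3 := h1 (δ / Real.exp (3 * c)) (by positivity)
    rw [div_mul_cancel₀ _ (Real.exp_pos _).ne'] at h3
    exact h3
  have h2 := image_le_of_liminf_slope_right_le_deriv_boundary (f := φ) (a := x) (b := y)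
    (hcont.mono fun z hz => hx.trans hz.1) (B := fun _ => φ x) (B' := fun _ => 0) le_rfl
    continuousOn_const (fun t _ => hasDerivWithinAt_const _ _ _)
    (fun t ht r hr => by
      refine hsl t (hx.trans ht.1) r ?_
      have h3 := step1 t (hx.trans ht.1)
      rw [max_eq_left (by linarith)]
      simpa using hr)
  exact h2 (Set.right_mem_Icc.2 hxy)

end Pool.Agent.Lib.MP_f82811_pr.OP
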