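import Pool.Agent.Lib.MP_f82811_pr.HT.Path
import Pool.Agent.Lib.MP_f82811_pr.HT.Pair
import Pool.Agent.Lib.MP_f82811_pr.HT.Sym
import Pool.Agent.Lib.MP_f82811_pr.HT.Graph
import Pool.Agent.Lib.MP_f82811_pr.Bridge

/-!
# Ordered pairs: definitions

The derivative of the gap in the coupling of a pair `k, l` is controlled by the gap of the reduced
system: on the event `σ_k ≠ σ_l` the spin at `k` feels the couplings `A k z - A l z`.
-/

set_option autoImplicit false

namespace Pool.Agent.Lib.MP_f82811_pr.OP

open Finset HT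

variable {V : Type*} [Fintype V] [DecidableEq V]

/-- The configurations with different spins at `k` and `l`. -/
def T (k l : V) : Finset (V → Bool) := Finset.univ.filter fun σ => σ k ≠ σ l

/-- The vertices different from `k` and `l`. -/
def oth (k l : V) : Finset V := Finset.univ.filter fun v => v ≠ k ∧ v ≠ l

/-- The conductance of a pair of configurations. -/
noncomputable def cond (w : (V → Bool) → ℝ) (σ τ : V → Bool) : ℝ := w σ * w τ / (w σ + w τ)

/-- The flip of both spins. -/
def flip2 (k l : V) (σ : V → Bool) : V → Bool := flip k (flip l σ)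

/-- The mass of `f ^ 2` on the configurations with different spins at `k` and `l`. -/
noncomputable def mass (w : (V → Bool) → ℝ) (k l : V) (f : (V → Bool) → ℝ) : ℝ :=
  ∑ σ ∈ T k l, w σ * (f σ * f σ)

/-- The pair defect: minus the derivative of `n` times the gap in the coupling of the pair. -/
noncomputable def pd (w : (V → Bool) → ℝ) (f : (V → Bool) → ℝ) (k l : V) : ℝ :=
  ∑ σ, w σ * (sp k σ * sp l σ * defect w f σ)

/-- The reduced couplings of the pair `k, l`. -/
def redm (A : V → V → ℝ) (k l u v : V) : ℝ :=
  if u = l ∨ v = l ∨ u = v then 0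
  else if u = k then A k v - A l v
  else if v = k then A u k - A u l
  else A u v

/-- The rank one couplings. -/
def rk (a : V → ℝ) (u v : V) : ℝ := if u = v then 0 else a u * a v

/-- The number of vertices times the gap. -/
noncomputable def lam (A : V → V → ℝ) : ℝ := (Fintype.card V : ℝ) * gap (normalize (W A))

omit [Fintype V] [DecidableEq V] in
theorem coup_rk [DecidableEq V] {a : V → ℝ} (ha : ∀ v, 0 ≤ a v) : Coup (rk a) where
  symm u v := by
    unfold rk
    by_cases h : u = v
    · rw [if_pos h, if_pos h.symm]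
    · rw [if_neg h, if_neg (Ne.symm h), mul_comm]
  nonneg u v := by
    unfold rk
    split_ifs
    · exact le_rfl
    · exact mul_nonneg (ha u) (ha v)
  diag v := by simp [rk]

theorem lam_nonneg (A : V → V → ℝ) : 0 ≤ lam A :=
  mul_nonneg (Nat.cast_nonneg _) (gap_nonneg (W_pos A))

theorem lam_le_one [Nonempty V] (A : V → V → ℝ) : lam A ≤ 1 := gap_le_inv (W_pos A) W_neg

/-- The slowest eigenfunction of a system of couplings. -/
theorem exists_slow [Nonempty V] {A : V → V → ℝ} (hA : Coup A) :
    ∃ f : (V → Bool) → ℝ, Odd' f ∧ Monotone f ∧ ip (W A) f f = 1 ∧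
      ceSum (W A) f = (fun σ => ((Fintype.card V : ℝ) - lam A) * f σ) ∧
      ∀ g : (V → Bool) → ℝ, Odd' g →
        ip (W A) g (ceSum (W A) g) ≤ ((Fintype.card V : ℝ) - lam A) * ip (W A) g g := by
  obtain ⟨f, ρ, _, hodd, hmono, hone, heig, hρ⟩ := exists_eig (W_pos A) W_neg (W_fkg hA)
  have h := gap_eq (W_pos A) W_neg (W_fkg hA) hodd hone heig hρ
  have h' : (Fintype.card V : ℝ) - lam A = ρ := by
    unfold lam
    linarith
  rw [h']
  exact ⟨f, hodd, hmono, hone, heig, hρ⟩

end Pool.Agent.Lib.MP_f82811_pr.OP
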