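import Pool.Agent.Lib.MP_f82811_pr.OP.Defs

/-!
# OrderedPairs, module Double

Proof. The involution `σ ↦ flip2 k l σ` preserves `T k l`, so it is enough to show for every `σ ∈ T`,
with `σ' = flip2 k l σ`,
`2 * cond w σ σ' * (f σ - f σ')^2 ≤ 2 * (w σ * (..) + w σ' * (..))` and to sum over `T` (the left hand
side is symmetric in `σ, σ'`; the sum of the right hand side over `T` is twice the sum of one term).
By symmetry let `σ k = true, σ l = false`. Put `p = w σ, q = w σ'`, `a` and `b` the weights of the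
configurations plus plus and minus minus (with the other spins of `σ`), so `p * q ≤ a * b` by the lattice
condition (the meet is minus minus, the join is plus plus). Let `x = f σ, y = f σ'`, `X` and `Y` the values at plus plus and minus minus,
`Y ≤ x, y ≤ X` because `f` is monotone.
The flip of `k` maps `σ` to minus minus and `σ'` to plus plus: `f σ - ce w k f σ = b / (p + b) * (x - Y)`,
`f σ' - ce w k f σ' = a / (q + a) * (y - X)`. The flip of `l` maps `σ` to plus plus and `σ'` to minus minus: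
`f σ - ce w l f σ = a / (p + a) * (x - X)`, `f σ' - ce w l f σ' = b / (q + b) * (y - Y)`.
Case `x ≥ y`: use only the two `k` terms, `x - Y ≥ x - y ≥ 0` and `X - y ≥ x - y`:
the sum is at least `(p P^2 + q Q^2) (x - y)^2`, `P = b / (p + b)`, `Q = a / (q + a)`,
`P + Q ≥ 1` because `a b ≥ p q`, and `p P^2 + q Q^2 ≥ p q / (p + q) * (P + Q)^2` (Cauchy).
Case `x < y`: the same with the two `l` terms.
(One scalar lemma with hypotheses `0 < p, q, a, b`, `p * q ≤ a * b`, `Y ≤ x`, `Y ≤ y`,
`x ≤ X`, `y ≤ X` and conclusion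
`p * q / (p + q) * (x - y)^2 ≤ p * ((b / (p + b) * (x - Y))^2 + (a / (p + a) * (x - X))^2) +
q * ((a / (q + a) * (y - X))^2 + (b / (q + b) * (y - Y))^2)`.)
-/

set_option autoImplicit false

namespace Pool.Agent.Lib.MP_f82811_pr.OP

open Finset HT

variable {V : Type*} [Fintype V] [DecidableEq V] {w : (V → Bool) → ℝ}

theorem Double_two {p q P Q t u v : ℝ} (hp : 0 < p) (hq : 0 < q) (hP : 0 ≤ P) (hQ : 0 ≤ Q)
    (hPQ : 1 ≤ P + Q) (ht : 0 ≤ t) (hu : t ≤ u) (hv : t ≤ v) :
    p * q / (p + q) * t ^ 2 ≤ p * (P * u) ^ 2 + q * (Q * v) ^ 2 := by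
  have hpq : 0 < p + q := add_pos hp hq
  have h1 : (P * t) ^ 2 ≤ (P * u) ^ 2 :=
    pow_le_pow_left₀ (mul_nonneg hP ht) (mul_le_mul_of_nonneg_left hu hP) 2
  have h2 : (Q * t) ^ 2 ≤ (Q * v) ^ 2 :=
    pow_le_pow_left₀ (mul_nonneg hQ ht) (mul_le_mul_of_nonneg_left hv hQ) 2
  have h3 : p * (P * t) ^ 2 ≤ p * (P * u) ^ 2 := mul_le_mul_of_nonneg_left h1 hp.le
  have h4 : q * (Q * t) ^ 2 ≤ q * (Q * v) ^ 2 := mul_le_mul_of_nonneg_left h2 hq.le
  have h5 : p * q / (p + q) ≤ p * P ^ 2 + q * Q ^ 2 := by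
    rw [div_le_iff₀ hpq]
    have h6 : 1 ≤ (P + Q) ^ 2 := by nlinarith
    have h7 : p * q ≤ p * q * (P + Q) ^ 2 := le_mul_of_one_le_right (mul_pos hp hq).le h6
    nlinarith [sq_nonneg (p * P - q * Q)]
  have h8 := mul_le_mul_of_nonneg_right h5 (sq_nonneg t)
  calc p * q / (p + q) * t ^ 2 ≤ (p * P ^ 2 + q * Q ^ 2) * t ^ 2 := h8
    _ = p * (P * t) ^ 2 + q * (Q * t) ^ 2 := by ring
    _ ≤ _ := add_le_add h3 h4

theorem Double_sum_one {p q a b : ℝ} (hp : 0 < p) (hq : 0 < q) (ha : 0 < a) (hb : 0 < b)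
    (h : p * q ≤ a * b) : 1 ≤ b / (p + b) + a / (q + a) := by
  rw [div_add_div _ _ (add_pos hp hb).ne' (add_pos hq ha).ne',
    le_div_iff₀ (mul_pos (add_pos hp hb) (add_pos hq ha))]
  nlinarith

theorem Double_scalar {p q a b x y X Y : ℝ} (hp : 0 < p) (hq : 0 < q) (ha : 0 < a) (hb : 0 < b)
    (h : p * q ≤ a * b) (h1 : Y ≤ x) (h2 : Y ≤ y) (h3 : x ≤ X) (h4 : y ≤ X) :
    p * q / (p + q) * (x - y) ^ 2 ≤
      p * ((b / (p + b) * (x - Y)) ^ 2 + (a / (p + a) * (x - X)) ^ 2) +
      q * ((a / (q + a) * (y - X)) ^ 2 + (b / (q + b) * (y - Y)) ^ 2) := by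
  have n1 : 0 ≤ b / (p + b) := (div_pos hb (add_pos hp hb)).le
  have n2 : 0 ≤ a / (q + a) := (div_pos ha (add_pos hq ha)).le
  have n3 : 0 ≤ a / (p + a) := (div_pos ha (add_pos hp ha)).le
  have n4 : 0 ≤ b / (q + b) := (div_pos hb (add_pos hq hb)).le
  rcases le_total y x with hxy | hxy
  · have k := Double_two (t := x - y) (u := x - Y) (v := X - y) hp hq n1 n2
      (Double_sum_one hp hq ha hb h) (by linarith) (by linarith) (by linarith)
    have e1 : 0 ≤ p * (a / (p + a) * (x - X)) ^ 2 := by positivity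
    have e2 : 0 ≤ q * (b / (q + b) * (y - Y)) ^ 2 := by positivity
    have e3 : (a / (q + a) * (X - y)) ^ 2 = (a / (q + a) * (y - X)) ^ 2 := by ring
    rw [e3] at k
    linarith
  · have k := Double_two (t := y - x) (u := X - x) (v := y - Y) hp hq n3 n4
      (Double_sum_one hp hq hb ha (by linarith [mul_comm a b])) (by linarith) (by linarith)
      (by linarith)
    have e1 : 0 ≤ p * (b / (p + b) * (x - Y)) ^ 2 := by positivity
    have e2 : 0 ≤ q * (a / (q + a) * (y - X)) ^ 2 := by positivity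
    have e3 : (a / (p + a) * (X - x)) ^ 2 = (a / (p + a) * (x - X)) ^ 2 := by ring
    have e4 : (y - x) ^ 2 = (x - y) ^ 2 := by ring
    rw [e3, e4] at k
    linarith

omit [Fintype V] in
theorem Double_ce (hw : ∀ σ, 0 < w σ) (v : V) (f : (V → Bool) → ℝ) (σ : V → Bool) :
    f σ - ce w v f σ = w (flip v σ) / (w σ + w (flip v σ)) * (f σ - f (flip v σ)) := by
  have h : w σ + w (flip v σ) ≠ 0 := (add_pos (hw _) (hw _)).ne'
  unfold ce
  field_simp
  ring

omit [Fintype V] in
theorem Double_comm (k l : V) (σ : V → Bool) : flip k (flip l σ) = flip l (flip k σ) := by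
  by_cases h : k = l
  · rw [h]
  · funext i
    unfold flip
    by_cases h1 : i = k
    · subst h1
      simp [Function.update_of_ne h]
    · by_cases h2 : i = l
      · subst h2
        simp [Function.update_of_ne (Ne.symm h)]
      · simp [h1, h2]

omit [Fintype V] in
theorem Double_flip_at (k : V) (σ : V → Bool) : flip k σ k = !σ k := by simp [flip]

omit [Fintype V] in
theorem Double_flip_of {k i : V} (h : i ≠ k) (σ : V → Bool) : flip k σ i = σ i := by
  simp [flip, h]

omit [Fintype V] in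
theorem Double_le_up {k : V} {σ : V → Bool} (h : σ k = false) : σ ≤ flip k σ := by
  intro i
  by_cases hi : i = k
  · subst hi
    rw [h]
    exact Bool.false_le _
  · rw [Double_flip_of hi]

omit [Fintype V] in
theorem Double_down_le {k : V} {σ : V → Bool} (h : σ k = true) : flip k σ ≤ σ := by
  intro i
  by_cases hi : i = k
  · subst hi
    rw [h]
    exact Bool.le_true _
  · rw [Double_flip_of hi]

omit [Fintype V] in
theorem Double_pt (hw : ∀ σ, 0 < w σ) (hfkg : ∀ σ τ, w σ * w τ ≤ w (σ ⊓ τ) * w (σ ⊔ τ))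
    {k l : V} (hkl : k ≠ l) {f : (V → Bool) → ℝ} (hf : Monotone f) {σ : V → Bool}
    (hk : σ k = true) (hl : σ l = false) :
    cond w σ (flip2 k l σ) * (f σ - f (flip2 k l σ)) ^ 2 ≤
      w σ * ((f σ - ce w k f σ) ^ 2 + (f σ - ce w l f σ) ^ 2) +
      w (flip2 k l σ) * ((f (flip2 k l σ) - ce w k f (flip2 k l σ)) ^ 2 +
        (f (flip2 k l σ) - ce w l f (flip2 k l σ)) ^ 2) := by
  have e1 : flip k (flip2 k l σ) = flip l σ := by unfold flip2; rw [flip_flip]
  have e2 : flip l (flip2 k l σ) = flip k σ := by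
    unfold flip2; rw [Double_comm k l, flip_flip]
  have hk2 : flip l σ k = true := by rw [Double_flip_of hkl, hk]
  have hl2 : flip k σ l = false := by rw [Double_flip_of hkl.symm, hl]
  have m1 : flip k σ ≤ σ := Double_down_le hk
  have m2 : σ ≤ flip l σ := Double_le_up hl
  have m3 : flip2 k l σ ≤ flip l σ := Double_down_le hk2
  have m4 : flip k σ ≤ flip2 k l σ := by
    have : flip2 k l σ = flip l (flip k σ) := Double_comm k l σ
    rw [this]
    exact Double_le_up hl2
  have i1 : σ ⊓ flip2 k l σ = flip k σ := by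
    funext i
    rw [Pi.inf_apply]
    unfold flip2
    by_cases h1 : i = k
    · subst h1
      rw [Double_flip_at, Double_flip_at, hk2, hk]; rfl
    · rw [Double_flip_of h1, Double_flip_of h1]
      by_cases h2 : i = l
      · subst h2
        rw [Double_flip_at, hl]; rfl
      · rw [Double_flip_of h2, inf_idem]
  have i2 : σ ⊔ flip2 k l σ = flip l σ := by
    funext i
    rw [Pi.sup_apply]
    unfold flip2
    by_cases h1 : i = k
    · subst h1
      rw [Double_flip_at, hk2, hk]; rfl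
    · rw [Double_flip_of h1]
      by_cases h2 : i = l
      · subst h2
        rw [Double_flip_at, hl]; rfl
      · rw [Double_flip_of h2, sup_idem]
  have hlat := hfkg σ (flip2 k l σ)
  rw [i1, i2, mul_comm (w (flip k σ))] at hlat
  have key := Double_scalar (hw σ) (hw (flip2 k l σ)) (hw (flip l σ)) (hw (flip k σ)) hlat
    (hf m1) (hf m4) (hf m2) (hf m3)
  rw [Double_ce hw k f σ, Double_ce hw l f σ, Double_ce hw k f (flip2 k l σ),
    Double_ce hw l f (flip2 k l σ), e1, e2]
  exact key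

theorem Double_sum (k l : V) (F : (V → Bool) → ℝ) :
    ∑ σ ∈ T k l, F (flip2 k l σ) = ∑ σ ∈ T k l, F σ := by
  have hinv : ∀ σ : V → Bool, flip2 k l (flip2 k l σ) = σ := by
    intro σ
    unfold flip2
    rw [Double_comm k l (flip k (flip l σ)), flip_flip, flip_flip]
  refine Finset.sum_nbij' (flip2 k l) (flip2 k l) ?_ ?_ ?_ ?_ ?_
  · intro σ hσ
    unfold T at hσ ⊢
    rw [Finset.mem_filter] at hσ ⊢
    refine ⟨Finset.mem_univ _, ?_⟩
    have hkl : k ≠ l := fun h => hσ.2 (by rw [h])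
    have h1 : flip2 k l σ k = !σ k := by
      unfold flip2; rw [Double_flip_at, Double_flip_of hkl]
    have h2 : flip2 k l σ l = !σ l := by
      unfold flip2; rw [Double_flip_of hkl.symm, Double_flip_at]
    rw [h1, h2]
    intro h
    exact hσ.2 (Bool.not_inj h)
  · intro σ hσ
    unfold T at hσ ⊢
    rw [Finset.mem_filter] at hσ ⊢
    refine ⟨Finset.mem_univ _, ?_⟩
    have hkl : k ≠ l := fun h => hσ.2 (by rw [h])
    have h1 : flip2 k l σ k = !σ k := by
      unfold flip2; rw [Double_flip_at, Double_flip_of hkl]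
    have h2 : flip2 k l σ l = !σ l := by
      unfold flip2; rw [Double_flip_of hkl.symm, Double_flip_at]
    rw [h1, h2]
    intro h
    exact hσ.2 (Bool.not_inj h)
  · intro σ _; exact hinv σ
  · intro σ _; exact hinv σ
  · intro σ _; rfl

theorem double_flip (hw : ∀ σ, 0 < w σ) (hfkg : ∀ σ τ, w σ * w τ ≤ w (σ ⊓ τ) * w (σ ⊔ τ))
    {k l : V} (hkl : k ≠ l) {f : (V → Bool) → ℝ} (hf : Monotone f) :
    ∑ σ ∈ T k l, cond w σ (flip2 k l σ) * (f σ - f (flip2 k l σ)) ^ 2 ≤
      2 * ∑ σ ∈ T k l, w σ * ((f σ - ce w k f σ) ^ 2 + (f σ - ce w l f σ) ^ 2) := by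
  have hinv : ∀ σ : V → Bool, flip2 k l (flip2 k l σ) = σ := by
    intro σ
    unfold flip2
    rw [Double_comm k l (flip k (flip l σ)), flip_flip, flip_flip]
  have hpt : ∀ σ ∈ T k l, cond w σ (flip2 k l σ) * (f σ - f (flip2 k l σ)) ^ 2 ≤
      w σ * ((f σ - ce w k f σ) ^ 2 + (f σ - ce w l f σ) ^ 2) +
      w (flip2 k l σ) * ((f (flip2 k l σ) - ce w k f (flip2 k l σ)) ^ 2 +
        (f (flip2 k l σ) - ce w l f (flip2 k l σ)) ^ 2) := by
    intro σ hσ
    unfold T at hσ
    rw [Finset.mem_filter] at hσ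
    have hne := hσ.2
    cases hk : σ k
    · have hl : σ l = true := by
        cases hl : σ l
        · exact absurd (hk.trans hl.symm) hne
        · rfl
      have h1 : flip2 k l σ k = true := by
        unfold flip2; rw [Double_flip_at, Double_flip_of hkl, hk]; rfl
      have h2 : flip2 k l σ l = false := by
        unfold flip2; rw [Double_flip_of hkl.symm, Double_flip_at, hl]; rfl
      have h3 := Double_pt hw hfkg hkl hf h1 h2
      rw [hinv] at h3
      have h4 : cond w (flip2 k l σ) σ = cond w σ (flip2 k l σ) := by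
        unfold cond
        rw [mul_comm, add_comm]
      have h5 : (f (flip2 k l σ) - f σ) ^ 2 = (f σ - f (flip2 k l σ)) ^ 2 := by ring
      rw [h4, h5] at h3
      linarith
    · have hl : σ l = false := by
        cases hl : σ l
        · rfl
        · exact absurd (hk.trans hl.symm) hne
      exact Double_pt hw hfkg hkl hf hk hl
  refine (Finset.sum_le_sum hpt).trans ?_
  rw [Finset.sum_add_distrib,
    Double_sum k l (fun σ => w σ * ((f σ - ce w k f σ) ^ 2 + (f σ - ce w l f σ) ^ 2))]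
  linarith

end Pool.Agent.Lib.MP_f82811_pr.OP
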