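import Pool.Agent.Lib.MP_f82811_pr.OP.Defs

/-!
# OrderedPairs, module Ident

Proof. Write `E_v f = ce w v f`, `D = defect w f = ∑_v E_v f (f - E_v f)`.
(1) For `v ≠ k, l` the function `sp k * sp l * E_v f` does not depend on the spin at `v`, so
`∑ w * (sp k * sp l * E_v f * (f - E_v f)) = 0` (apply `ip_ce` with `g = u := sp k * sp l * E_v f`,
which satisfies `ce w v u = u`; compare the proof of `sum_defect_zero` in HT/Path.lean).
(2) For `v = k` (and `v = l`): `∑ w * (E_k f * (f - E_k f)) = 0` (same argument), and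
`sp k σ * sp l σ = 1 - 2 * [σ k ≠ σ l]`, so the sum is `-2 ∑_{σ ∈ T} w * (E_k f * (f - E_k f))`.
(3) Hence `pd = 2 ∑_T w * ((f - E_k f)^2 + (f - E_l f)^2) - 2 ∑_T w * f * ((f - E_k f) + (f - E_l f))`.
(4) By the eigenvalue equation `∑_v (f - E_v f) = (n - ρ) f`; multiply by `w * f` and sum over `T`:
`∑_T w f ((f - E_k f) + (f - E_l f)) = (n - ρ) ∑_T w f^2 - ∑_{v ≠ k, l} ∑_T w f (f - E_v f)`.
-/

set_option autoImplicit false

namespace Pool.Agent.Lib.MP_f82811_pr.OP

open Finset HT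

variable {V : Type*} [Fintype V] [DecidableEq V] {w : (V → Bool) → ℝ}

private theorem ident_zero (hw : ∀ σ, 0 < w σ) (v : V) (f u : (V → Bool) → ℝ)
    (hu : ∀ σ, u (flip v σ) = u σ) : ∑ σ, w σ * (u σ * (f σ - ce w v f σ)) = 0 := by
  have hcu : ce w v u = u := by
    funext σ
    unfold ce
    rw [hu σ]
    have hpos : w σ + w (flip v σ) ≠ 0 := (add_pos (hw _) (hw _)).ne'
    field_simp
  have h1 : ip w f u = ip w (ce w v f) u := by
    have := ip_ce hw v u f
    rwa [hcu] at this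
  have h2 : ∑ σ, w σ * (u σ * (f σ - ce w v f σ)) = ip w f u - ip w (ce w v f) u := by
    unfold ip
    rw [← Finset.sum_sub_distrib]
    exact Finset.sum_congr rfl fun σ _ => by ring
  rw [h2, h1, sub_self]

omit [Fintype V] in
private theorem ident_sp_flip {v k : V} (h : v ≠ k) (σ : V → Bool) : sp k (flip v σ) = sp k σ := by
  unfold sp flip
  rw [Function.update_of_ne (Ne.symm h)]

private theorem ident_single (hw : ∀ σ, 0 < w σ) {k l : V} (v : V) (f : (V → Bool) → ℝ) :
    ∑ σ, w σ * (sp k σ * sp l σ * (ce w v f σ * (f σ - ce w v f σ))) =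
      -2 * ∑ σ ∈ T k l, w σ * (ce w v f σ * (f σ - ce w v f σ)) := by
  have h0 := ident_zero hw v f (ce w v f) (ce_flip v f)
  have h1 : ∀ σ : V → Bool, w σ * (sp k σ * sp l σ * (ce w v f σ * (f σ - ce w v f σ))) =
      w σ * (ce w v f σ * (f σ - ce w v f σ)) +
      -2 * (if σ k ≠ σ l then w σ * (ce w v f σ * (f σ - ce w v f σ)) else 0) := by
    intro σ
    unfold sp spin
    rcases Bool.eq_false_or_eq_true (σ k) with hk | hk <;>
    rcases Bool.eq_false_or_eq_true (σ l) with hl | hl <;>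
    simp [hk, hl] <;> ring
  rw [Finset.sum_congr rfl fun σ _ => h1 σ, Finset.sum_add_distrib, h0, zero_add,
    ← Finset.mul_sum, ← Finset.sum_filter]
  rfl

theorem pair_identity (hw : ∀ σ, 0 < w σ) {k l : V} (hkl : k ≠ l) {f : (V → Bool) → ℝ} {ρ : ℝ}
    (heig : ceSum w f = fun σ => ρ * f σ) :
    pd w f k l = 2 * (∑ v ∈ oth k l, ∑ σ ∈ T k l, w σ * (f σ * (f σ - ce w v f σ)) +
      ∑ σ ∈ T k l, w σ * ((f σ - ce w k f σ) ^ 2 + (f σ - ce w l f σ) ^ 2) -
      ((Fintype.card V : ℝ) - ρ) * mass w k l f) := by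
  have hsplit : ∀ F : V → ℝ, ∑ v, F v = ∑ v ∈ oth k l, F v + F k + F l := by
    intro F
    have h1 : (univ : Finset V) = insert k (insert l (oth k l)) := by
      ext v
      unfold oth
      simp only [mem_univ, mem_insert, mem_filter, true_and, true_iff]
      by_cases h : v = k
      · exact Or.inl h
      · by_cases h' : v = l
        · exact Or.inr (Or.inl h')
        · exact Or.inr (Or.inr ⟨h, h'⟩)
    rw [h1, Finset.sum_insert, Finset.sum_insert]
    · ring
    · unfold oth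
      simp
    · unfold oth
      simp [hkl]
  have hpd : pd w f k l = ∑ v, ∑ σ, w σ * (sp k σ * sp l σ * (ce w v f σ * (f σ - ce w v f σ))) := by
    unfold pd
    rw [Finset.sum_comm]
    refine Finset.sum_congr rfl fun σ _ => ?_
    unfold defect
    rw [Finset.mul_sum, Finset.mul_sum]
  rw [hpd, hsplit]
  have hoth : ∑ v ∈ oth k l, ∑ σ, w σ * (sp k σ * sp l σ * (ce w v f σ * (f σ - ce w v f σ))) =
      0 := by
    refine Finset.sum_eq_zero fun v hv => ?_
    have hv' : v ≠ k ∧ v ≠ l := by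
      unfold oth at hv
      exact (mem_filter.1 hv).2
    have := ident_zero hw v f (fun σ => sp k σ * sp l σ * ce w v f σ) (fun σ => by
      rw [ident_sp_flip hv'.1, ident_sp_flip hv'.2, ce_flip])
    rw [← this]
    refine Finset.sum_congr rfl fun σ _ => ?_
    ring
  rw [hoth, zero_add, ident_single hw, ident_single hw]
  -- the eigenvalue equation
  have heq : ∀ σ, ∑ v, (f σ - ce w v f σ) = ((Fintype.card V : ℝ) - ρ) * f σ := by
    intro σ
    have h5 : ∑ v, ce w v f σ = ρ * f σ := congrFun heig σ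
    rw [Finset.sum_sub_distrib, h5, Finset.sum_const, Finset.card_univ, nsmul_eq_mul]
    ring
  have hm : ((Fintype.card V : ℝ) - ρ) * mass w k l f =
      ∑ v, ∑ σ ∈ T k l, w σ * (f σ * (f σ - ce w v f σ)) := by
    unfold mass
    rw [Finset.sum_comm, Finset.mul_sum]
    refine Finset.sum_congr rfl fun σ _ => ?_
    rw [← Finset.mul_sum, ← Finset.mul_sum, heq σ]
    ring
  rw [hm, hsplit]
  have hk : ∀ v, ∑ σ ∈ T k l, w σ * (ce w v f σ * (f σ - ce w v f σ)) =
      ∑ σ ∈ T k l, w σ * (f σ * (f σ - ce w v f σ)) -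
      ∑ σ ∈ T k l, w σ * (f σ - ce w v f σ) ^ 2 := by
    intro v
    rw [← Finset.sum_sub_distrib]
    exact Finset.sum_congr rfl fun σ _ => by ring
  have hs : ∑ σ ∈ T k l, w σ * ((f σ - ce w k f σ) ^ 2 + (f σ - ce w l f σ) ^ 2) =
      ∑ σ ∈ T k l, w σ * (f σ - ce w k f σ) ^ 2 + ∑ σ ∈ T k l, w σ * (f σ - ce w l f σ) ^ 2 := by
    rw [← Finset.sum_add_distrib]
    exact Finset.sum_congr rfl fun σ _ => by ring
  rw [hk k, hk l, hs]
  ring

end Pool.Agent.Lib.MP_f82811_pr.OP
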