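import Pool.Agent.Lib.MP_f82811_pr.OP.Defs

/-!
# OrderedPairs, module Red (60 minutes)

Proof. Let `A' = redm A k l` and `r σ = Function.update σ l (!σ k)` (a configuration of `T`; `r σ = σ`
for `σ ∈ T`), `F = f ∘ r`, which is odd and does not depend on the spin at `l`.
(1) For `σ ∈ T`: `en A σ = en A' σ - A k l` (on `T` the spins satisfy `sp l σ = - sp k σ`; split the
double sum in `en`), so `W A σ = exp (-A k l) * W A' σ`. `W A'` does not depend on the spin at `l`.
(2) `poincare_of_gap` for the weight `W A'` and the odd function `F` (mean zero by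
`ip_odd_even W_neg`): `2 * lam A' * ip (W A') F F ≤ dir (W A') F`.
(3) For a function `H` which does not depend on the spin at `l`: `∑ σ, H σ = 2 ∑_{σ ∈ T} H σ`.
(Flip the spin at `l`: it is a bijection between `T` and its complement.) Hence
`ip (W A') F F = 2 ∑_T W A' σ * f σ^2`, and in `dir (W A') F`: the terms `v = l` vanish, the terms
`v ≠ k, l` give `2 ∑_T cond (W A') σ (flip v σ) * (f σ - f (flip v σ))^2` (for `σ ∈ T` also
`flip v σ ∈ T`), and the term `v = k` gives
`2 ∑_T cond (W A') σ (flip2 k l σ) * (f σ - f (flip2 k l σ))^2` because for `σ ∈ T`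
`r (flip k σ) = flip2 k l σ` and `W A' (flip k σ) = W A' (flip2 k l σ)`.
(4) Multiply by `exp (-A k l)`; `cond` is homogeneous of degree one.
-/

set_option autoImplicit false

namespace Pool.Agent.Lib.MP_f82811_pr.OP

open Finset HT

variable {V : Type*} [Fintype V] [DecidableEq V]

theorem Red_split {k l : V} (hkl : k ≠ l) (F : V → ℝ) :
    ∑ v, F v = F k + F l + ∑ v ∈ oth k l, F v := by
  rw [← Finset.add_sum_erase _ _ (Finset.mem_univ k),
    ← Finset.add_sum_erase _ _ (Finset.mem_erase.2 ⟨hkl.symm, Finset.mem_univ l⟩), add_assoc]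
  congr 2
  refine Finset.sum_congr ?_ fun _ _ => rfl
  ext v
  simp only [oth, Finset.mem_erase, Finset.mem_univ, and_true, Finset.mem_filter, true_and]
  tauto

omit [Fintype V] [DecidableEq V] in
theorem Red_sp {k l : V} {σ : V → Bool} (h : σ k ≠ σ l) : sp l σ = -sp k σ := by
  unfold sp
  have : σ l = !σ k := by
    cases h1 : σ k <;> cases h2 : σ l <;> simp_all
  rw [this, spin_not]

omit [Fintype V] [DecidableEq V] in
theorem Red_sq (k : V) (σ : V → Bool) : sp k σ * sp k σ = 1 := by
  unfold sp spin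
  split_ifs <;> norm_num

theorem Red_en {A : V → V → ℝ} (hA : Coup A) {k l : V} (hkl : k ≠ l) {σ : V → Bool}
    (hσ : σ k ≠ σ l) : en A σ = en (redm A k l) σ - A k l := by
  have hs := Red_sp hσ
  have hq := Red_sq k σ
  have hoth : ∀ v ∈ oth k l, v ≠ k ∧ v ≠ l := fun v hv => (Finset.mem_filter.1 hv).2
  have e1 : ∀ v ∈ oth k l, redm A k l k v = A k v - A l v := by
    intro v hv
    obtain ⟨h1, h2⟩ := hoth v hv
    unfold redm
    rw [if_neg (by rintro (h | h | h); exacts [hkl h, h2 h, h1 h.symm]), if_pos rfl]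
  have e2 : ∀ u ∈ oth k l, redm A k l u k = A u k - A u l := by
    intro u hu
    obtain ⟨h1, h2⟩ := hoth u hu
    unfold redm
    rw [if_neg (by rintro (h | h | h); exacts [h2 h, hkl h, h1 h]), if_neg h1, if_pos rfl]
  have e3 : ∀ u ∈ oth k l, ∀ v ∈ oth k l, redm A k l u v = A u v := by
    intro u hu v hv
    obtain ⟨h1, h2⟩ := hoth u hu
    obtain ⟨h3, h4⟩ := hoth v hv
    unfold redm
    by_cases huv : u = v
    · rw [if_pos (Or.inr (Or.inr huv)), huv, hA.diag]
    · rw [if_neg (by rintro (h | h | h); exacts [h2 h, h4 h, huv h]), if_neg h1, if_neg h3]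
  have e4 : redm A k l k k = 0 := by
    unfold redm
    rw [if_pos (Or.inr (Or.inr rfl))]
  have e5 : ∀ u, redm A k l u l = 0 := by
    intro u
    unfold redm
    rw [if_pos (Or.inr (Or.inl rfl))]
  have e6 : ∀ v, redm A k l l v = 0 := by
    intro v
    unfold redm
    rw [if_pos (Or.inl rfl)]
  have row : ∀ (B : V → V → ℝ) (u : V), ∑ v, B u v * sp u σ * sp v σ =
      sp u σ * ((B u k - B u l) * sp k σ + ∑ v ∈ oth k l, B u v * sp v σ) := by
    intro B u
    rw [Red_split hkl, hs, mul_add, Finset.mul_sum]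
    congr 1
    · ring
    · exact Finset.sum_congr rfl fun v _ => by ring
  have f1 : ∑ u ∈ oth k l, ∑ v, A u v * sp u σ * sp v σ =
      ∑ u ∈ oth k l, ∑ v, redm A k l u v * sp u σ * sp v σ := by
    refine Finset.sum_congr rfl fun u hu => ?_
    rw [row, row, e2 u hu, e5, sub_zero]
    congr 2
    exact Finset.sum_congr rfl fun v hv => by rw [e3 u hu v hv]
  have f2 : ∑ v ∈ oth k l, redm A k l k v * sp v σ =
      ∑ v ∈ oth k l, A k v * sp v σ - ∑ v ∈ oth k l, A l v * sp v σ := by
    rw [← Finset.sum_sub_distrib]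
    exact Finset.sum_congr rfl fun v hv => by rw [e1 v hv]; ring
  have f3 : ∑ v ∈ oth k l, redm A k l l v * sp v σ = 0 := by
    refine Finset.sum_eq_zero fun v _ => ?_
    rw [e6, zero_mul]
  unfold en
  rw [Red_split hkl (fun u => ∑ v, A u v * sp u σ * sp v σ),
    Red_split hkl (fun u => ∑ v, redm A k l u v * sp u σ * sp v σ), f1]
  rw [row A k, row A l, row (redm A k l) k, row (redm A k l) l, f2, f3, e4, e5 k, e6 k, e6 l,
    hA.diag k, hA.diag l, hs, hA.symm l k]
  linear_combination (-A k l) * hq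

theorem Red_en_l (A : V → V → ℝ) (k l : V) (σ : V → Bool) (b : Bool) :
    en (redm A k l) (Function.update σ l b) = en (redm A k l) σ := by
  unfold en
  congr 1
  refine Finset.sum_congr rfl fun u _ => Finset.sum_congr rfl fun v _ => ?_
  by_cases h : u = l ∨ v = l
  · have h1 : redm A k l u v = 0 := by
      unfold redm
      rw [if_pos (by tauto)]
    rw [h1]
    ring
  · have hu : u ≠ l := fun e => h (Or.inl e)
    have hv : v ≠ l := fun e => h (Or.inr e)
    unfold sp
    rw [Function.update_of_ne hu, Function.update_of_ne hv]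

/-- a sum of a function not depending on the spin at `l` -/
theorem Red_sum {k l : V} (hkl : k ≠ l) (H : (V → Bool) → ℝ) (hH : ∀ σ, H (flip l σ) = H σ) :
    ∑ σ, H σ = 2 * ∑ σ ∈ T k l, H σ := by
  have h1 : ∑ σ ∈ T k l, H σ = ∑ σ, if σ k ≠ σ l then H σ else 0 := by
    unfold T
    rw [Finset.sum_filter]
  have h2 : ∑ σ : V → Bool, (if σ k ≠ σ l then H σ else 0) =
      ∑ σ : V → Bool, if σ k ≠ σ l then 0 else H σ := by
    rw [← sum_flip l]
    refine Finset.sum_congr rfl fun σ _ => ?_
    have h3 : (flip l σ) k = σ k := by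
      unfold flip
      rw [Function.update_of_ne hkl]
    have h4 : (flip l σ) l = !σ l := by
      unfold flip
      rw [Function.update_self]
    rw [h3, h4, hH]
    cases σ k <;> cases σ l <;> simp
  have h3 : ∑ σ, H σ = ∑ σ : V → Bool, (if σ k ≠ σ l then H σ else 0) +
      ∑ σ : V → Bool, if σ k ≠ σ l then 0 else H σ := by
    rw [← Finset.sum_add_distrib]
    refine Finset.sum_congr rfl fun σ _ => ?_
    split_ifs <;> ring
  rw [h3, ← h2, ← h1]
  ring

omit [Fintype V] in
theorem Red_comm {v l : V} (h : v ≠ l) (σ : V → Bool) : flip v (flip l σ) = flip l (flip v σ) := by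
  unfold flip
  rw [Function.update_of_ne h, Function.update_of_ne h.symm, Function.update_comm h]

/-- the configuration of `T` with the same spins outside `l` -/
def RedR (k l : V) (σ : V → Bool) : V → Bool := Function.update σ l (!σ k)

omit [Fintype V] in
theorem RedR_flip_l {k l : V} (hkl : k ≠ l) (σ : V → Bool) : RedR k l (flip l σ) = RedR k l σ := by
  unfold RedR flip
  rw [Function.update_of_ne hkl, Function.update_idem]

omit [Fintype V] in
theorem RedR_T {k l : V} {σ : V → Bool} (h : σ k ≠ σ l) : RedR k l σ = σ := by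
  unfold RedR
  have : (!σ k) = σ l := by
    cases h1 : σ k <;> cases h2 : σ l <;> simp_all
  rw [this, Function.update_eq_self]

omit [Fintype V] in
theorem RedR_neg {k l : V} (σ : V → Bool) : RedR k l (neg σ) = neg (RedR k l σ) := by
  funext v
  unfold RedR neg
  by_cases h : v = l
  · subst h
    rw [Function.update_self, Function.update_self]
  · rw [Function.update_of_ne h, Function.update_of_ne h]

omit [Fintype V] in
theorem RedR_flip_k {k l : V} (hkl : k ≠ l) {σ : V → Bool} (h : σ k ≠ σ l) :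
    RedR k l (flip k σ) = flip2 k l σ := by
  unfold flip2
  rw [Red_comm hkl]
  have h1 : flip l (flip k σ) = Function.update (flip k σ) l (!σ l) := by
    unfold flip
    rw [Function.update_of_ne hkl.symm]
  rw [h1]
  unfold RedR
  congr 1
  have h2 : (flip k σ) k = !σ k := by
    unfold flip
    rw [Function.update_self]
  rw [h2]
  cases h3 : σ k <;> cases h4 : σ l <;> simp_all

omit [Fintype V] in
theorem Red_T_oth {k l v : V} (hk : v ≠ k) (hl : v ≠ l) {σ : V → Bool} (h : σ k ≠ σ l) :
    (flip v σ) k ≠ (flip v σ) l := by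
  unfold flip
  rw [Function.update_of_ne hk.symm, Function.update_of_ne hl.symm]
  exact h

omit [Fintype V] in
theorem Red_T_two {k l : V} (hkl : k ≠ l) {σ : V → Bool} (h : σ k ≠ σ l) :
    (flip2 k l σ) k ≠ (flip2 k l σ) l := by
  unfold flip2 flip
  rw [Function.update_self, Function.update_of_ne hkl, Function.update_of_ne hkl.symm,
    Function.update_self]
  intro h1
  apply h
  simpa using h1

theorem reduced_poincare [Nonempty V] {A : V → V → ℝ} (hA : Coup A) {k l : V} (hkl : k ≠ l)
    {f : (V → Bool) → ℝ} (hf : Odd' f) :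
    2 * lam (redm A k l) * mass (W A) k l f ≤
      ∑ v ∈ oth k l, ∑ σ ∈ T k l, cond (W A) σ (flip v σ) * (f σ - f (flip v σ)) ^ 2 +
      ∑ σ ∈ T k l, cond (W A) σ (flip2 k l σ) * (f σ - f (flip2 k l σ)) ^ 2 := by
  set B := redm A k l with hB
  set F : (V → Bool) → ℝ := fun σ => f (RedR k l σ) with hF
  have hT : ∀ σ ∈ T k l, σ k ≠ σ l := fun σ h => (Finset.mem_filter.1 h).2
  -- the weights
  have hWB : ∀ σ, W B (flip l σ) = W B σ := by
    intro σ
    unfold W flip
    rw [hB, Red_en_l]
  have hWT : ∀ σ : V → Bool, σ k ≠ σ l → W A σ = Real.exp (-A k l) * W B σ := by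
    intro σ hσ
    unfold W
    rw [Red_en hA hkl hσ, ← Real.exp_add]
    congr 1
    ring
  have hcond : ∀ σ τ : V → Bool, σ k ≠ σ l → τ k ≠ τ l →
      cond (W A) σ τ = Real.exp (-A k l) * cond (W B) σ τ := by
    intro σ τ h1 h2
    unfold cond
    rw [hWT σ h1, hWT τ h2]
    have h3 : Real.exp (-A k l) ≠ 0 := (Real.exp_pos _).ne'
    have h4 : W B σ + W B τ ≠ 0 := (add_pos (W_pos _ _) (W_pos _ _)).ne'
    rw [← mul_add]
    field_simp
  have hFl : ∀ σ, F (flip l σ) = F σ := by
    intro σ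
    simp only [hF]
    rw [RedR_flip_l hkl]
  have hFT : ∀ σ : V → Bool, σ k ≠ σ l → F σ = f σ := by
    intro σ hσ
    simp only [hF]
    rw [RedR_T hσ]
  -- the Poincare inequality
  have hFodd : Odd' F := by
    intro σ
    simp only [hF]
    rw [RedR_neg, hf]
  have hP := poincare_of_gap (W_pos B) (g := F) (ip_odd_even W_neg hFodd (fun _ => rfl))
  -- the mass
  have hm : mass (W A) k l f = Real.exp (-A k l) * (ip (W B) F F / 2) := by
    have h1 : ip (W B) F F = 2 * ∑ σ ∈ T k l, W B σ * (F σ * F σ) := by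
      unfold ip
      exact Red_sum hkl _ (fun σ => by rw [hWB, hFl])
    rw [h1, mul_div_cancel_left₀ _ (by norm_num : (2 : ℝ) ≠ 0), Finset.mul_sum]
    unfold mass
    refine Finset.sum_congr rfl fun σ hσ => ?_
    rw [hWT σ (hT σ hσ), hFT σ (hT σ hσ)]
    ring
  -- the Dirichlet form
  have hterm : ∀ v, v ≠ l → ∑ σ, W B σ * W B (flip v σ) / (W B σ + W B (flip v σ)) *
      (F σ - F (flip v σ)) ^ 2 = 2 * ∑ σ ∈ T k l, W B σ * W B (flip v σ) /
      (W B σ + W B (flip v σ)) * (F σ - F (flip v σ)) ^ 2 := by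
    intro v hv
    refine Red_sum hkl _ (fun σ => ?_)
    rw [Red_comm hv, hWB, hWB, hFl, hFl]
  have hl0 : ∑ σ, W B σ * W B (flip l σ) / (W B σ + W B (flip l σ)) *
      (F σ - F (flip l σ)) ^ 2 = 0 := by
    refine Finset.sum_eq_zero fun σ _ => ?_
    rw [hFl, sub_self]
    ring
  have hdir : Real.exp (-A k l) * (dir (W B) F / 2) =
      ∑ v ∈ oth k l, ∑ σ ∈ T k l, cond (W A) σ (flip v σ) * (f σ - f (flip v σ)) ^ 2 +
      ∑ σ ∈ T k l, cond (W A) σ (flip2 k l σ) * (f σ - f (flip2 k l σ)) ^ 2 := by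
    unfold dir
    rw [Finset.sum_comm, Red_split hkl, hl0, hterm k hkl]
    have h1 : ∑ v ∈ oth k l, ∑ σ, W B σ * W B (flip v σ) / (W B σ + W B (flip v σ)) *
        (F σ - F (flip v σ)) ^ 2 = 2 * ∑ v ∈ oth k l, ∑ σ ∈ T k l, W B σ * W B (flip v σ) /
        (W B σ + W B (flip v σ)) * (F σ - F (flip v σ)) ^ 2 := by
      rw [Finset.mul_sum]
      exact Finset.sum_congr rfl fun v hv => hterm v (Finset.mem_filter.1 hv).2.2
    rw [h1]
    have h2 : ∑ v ∈ oth k l, ∑ σ ∈ T k l, cond (W A) σ (flip v σ) * (f σ - f (flip v σ)) ^ 2 =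
        Real.exp (-A k l) * ∑ v ∈ oth k l, ∑ σ ∈ T k l, W B σ * W B (flip v σ) /
        (W B σ + W B (flip v σ)) * (F σ - F (flip v σ)) ^ 2 := by
      rw [Finset.mul_sum]
      refine Finset.sum_congr rfl fun v hv => ?_
      obtain ⟨hvk, hvl⟩ := (Finset.mem_filter.1 hv).2
      rw [Finset.mul_sum]
      refine Finset.sum_congr rfl fun σ hσ => ?_
      have h3 := hT σ hσ
      have h4 := Red_T_oth hvk hvl h3
      rw [hcond _ _ h3 h4, hFT σ h3, hFT _ h4]
      unfold cond
      ring
    have h5 : ∑ σ ∈ T k l, cond (W A) σ (flip2 k l σ) * (f σ - f (flip2 k l σ)) ^ 2 =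
        Real.exp (-A k l) * ∑ σ ∈ T k l, W B σ * W B (flip k σ) /
        (W B σ + W B (flip k σ)) * (F σ - F (flip k σ)) ^ 2 := by
      rw [Finset.mul_sum]
      refine Finset.sum_congr rfl fun σ hσ => ?_
      have h3 := hT σ hσ
      have h4 := Red_T_two hkl h3
      have h6 : F (flip k σ) = f (flip2 k l σ) := by
        simp only [hF]
        rw [RedR_flip_k hkl h3]
      have h7 : W B (flip2 k l σ) = W B (flip k σ) := by
        unfold flip2
        rw [Red_comm hkl, hWB]
      rw [hcond _ _ h3 h4, hFT σ h3, h6]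
      unfold cond
      rw [h7]
      ring
    rw [h2, h5]
    ring
  rw [← hdir, hm]
  have h8 : 2 * lam B * ip (W B) F F ≤ dir (W B) F := by
    unfold lam
    rw [← mul_assoc]
    exact hP
  have h9 := mul_le_mul_of_nonneg_left h8 (Real.exp_pos (-A k l)).le
  linarith

end Pool.Agent.Lib.MP_f82811_pr.OP
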