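import Pool.Agent.Lib.MP_f82811_pr.OP.Ident
import Pool.Agent.Lib.MP_f82811_pr.OP.Double
import Pool.Agent.Lib.MP_f82811_pr.OP.Red

/-!
# OrderedPairs, module PairB (30 minutes)

Proof of `pair_bound`. For `v ≠ k, l` the set `T` is invariant under the flip of `v`, and
`w σ * (f σ * (f σ - ce w v f σ)) = cond w σ (flip v σ) * (f σ * (f σ - f (flip v σ)))`
(definition of `ce`), so by symmetrisation (as in `ip_sub_ce` of Weights.lean)
`2 ∑_T w f (f - E_v f) = ∑_T cond w σ (flip v σ) * (f σ - f (flip v σ))^2`.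
Insert this and `double_flip` in `pair_identity` (with `ρ = n - lam A`) and use `reduced_poincare`:
`pd = 2 * X`, `2 X ≥ 2 lam (redm A k l) mass - 2 lam A mass`.
`pair_bound'`: `0 ≤ mass ≤ ip (W A) f f = 1`.
-/

set_option autoImplicit false

namespace Pool.Agent.Lib.MP_f82811_pr.OP

open Finset HT

variable {V : Type*} [Fintype V] [DecidableEq V]

theorem PairB_term {w : (V → Bool) → ℝ} (hw : ∀ σ, 0 < w σ) {k l v : V} (hk : v ≠ k)
    (hl : v ≠ l) (f : (V → Bool) → ℝ) :
    2 * ∑ σ ∈ T k l, w σ * (f σ * (f σ - ce w v f σ)) =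
      ∑ σ ∈ T k l, cond w σ (flip v σ) * (f σ - f (flip v σ)) ^ 2 := by
  have key : ∀ σ, w σ * (f σ * (f σ - ce w v f σ)) =
      cond w σ (flip v σ) * (f σ * (f σ - f (flip v σ))) := by
    intro σ
    have hpos : w σ + w (flip v σ) ≠ 0 := (add_pos (hw _) (hw _)).ne'
    unfold ce cond
    field_simp
    ring
  have h1 : ∑ σ ∈ T k l, w σ * (f σ * (f σ - ce w v f σ)) =
      ∑ σ ∈ T k l, cond w σ (flip v σ) * (f σ * (f σ - f (flip v σ))) :=
    Finset.sum_congr rfl fun σ _ => key σ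
  have h2 : ∑ σ ∈ T k l, cond w σ (flip v σ) * (f σ * (f σ - f (flip v σ))) =
      ∑ σ ∈ T k l, cond w σ (flip v σ) * (f (flip v σ) * (f (flip v σ) - f σ)) := by
    refine Finset.sum_nbij' (fun σ => flip v σ) (fun σ => flip v σ) ?_ ?_ ?_ ?_ ?_
    · intro σ hσ
      exact Finset.mem_filter.2 ⟨Finset.mem_univ _, Red_T_oth hk hl (Finset.mem_filter.1 hσ).2⟩
    · intro σ hσ
      exact Finset.mem_filter.2 ⟨Finset.mem_univ _, Red_T_oth hk hl (Finset.mem_filter.1 hσ).2⟩
    · intro σ _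
      exact flip_flip v σ
    · intro σ _
      exact flip_flip v σ
    · intro σ _
      simp only [flip_flip]
      unfold cond
      rw [mul_comm (w (flip v σ)) (w σ), add_comm (w (flip v σ)) (w σ)]
  rw [h1, two_mul]
  nth_rewrite 2 [h2]
  rw [← Finset.sum_add_distrib]
  exact Finset.sum_congr rfl fun σ _ => by ring

theorem pair_bound [Nonempty V] {A : V → V → ℝ} (hA : Coup A) {k l : V} (hkl : k ≠ l)
    {f : (V → Bool) → ℝ} (hodd : Odd' f) (hmono : Monotone f)
    (heig : ceSum (W A) f = fun σ => ((Fintype.card V : ℝ) - lam A) * f σ) :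
    2 * (lam (redm A k l) - lam A) * mass (W A) k l f ≤ pd (W A) f k l := by
  have h1 := pair_identity (W_pos A) hkl heig
  have h2 := double_flip (W_pos A) (W_fkg hA) hkl hmono
  have h3 := reduced_poincare hA hkl hodd
  have h4 : 2 * ∑ v ∈ oth k l, ∑ σ ∈ T k l, W A σ * (f σ * (f σ - ce (W A) v f σ)) =
      ∑ v ∈ oth k l, ∑ σ ∈ T k l, cond (W A) σ (flip v σ) * (f σ - f (flip v σ)) ^ 2 := by
    rw [Finset.mul_sum]
    refine Finset.sum_congr rfl fun v hv => ?_
    obtain ⟨h5, h6⟩ := (Finset.mem_filter.1 hv).2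
    exact PairB_term (W_pos A) h5 h6 f
  rw [← h4] at h3
  have h5 : ((Fintype.card V : ℝ) - ((Fintype.card V : ℝ) - lam A)) = lam A := by ring
  rw [h5] at h1
  rw [h1]
  linarith

theorem pair_bound' [Nonempty V] {A : V → V → ℝ} (hA : Coup A) {k l : V} (hkl : k ≠ l)
    {f : (V → Bool) → ℝ} (hodd : Odd' f) (hmono : Monotone f) (hone : ip (W A) f f = 1)
    (heig : ceSum (W A) f = fun σ => ((Fintype.card V : ℝ) - lam A) * f σ) :
    -(2 * max 0 (lam A - lam (redm A k l))) ≤ pd (W A) f k l := by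
  refine le_trans ?_ (pair_bound hA hkl hodd hmono heig)
  have h1 : 0 ≤ mass (W A) k l f :=
    Finset.sum_nonneg fun σ _ => mul_nonneg (W_pos A σ).le (mul_self_nonneg _)
  have h2 : mass (W A) k l f ≤ 1 := by
    rw [← hone]
    unfold mass ip
    refine Finset.sum_le_sum_of_subset_of_nonneg (Finset.subset_univ _) fun σ _ _ => ?_
    exact mul_nonneg (W_pos A σ).le (mul_self_nonneg _)
  set x := lam A - lam (redm A k l) with hx
  have h3 : lam (redm A k l) - lam A = -x := by rw [hx]; ring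
  rw [h3]
  have h4 : x * mass (W A) k l f ≤ max 0 x := by
    calc x * mass (W A) k l f ≤ max 0 x * mass (W A) k l f :=
          mul_le_mul_of_nonneg_right (le_max_right 0 x) h1
      _ ≤ max 0 x * 1 := mul_le_mul_of_nonneg_left h2 (le_max_left 0 x)
      _ = max 0 x := mul_one _
  linarith

end Pool.Agent.Lib.MP_f82811_pr.OP
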