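import Pool.Agent.Lib.MP_f82811_pr.OP.RankStep

/-!
# OrderedPairs, module Rank

Proof of `rank_red`: induction on `m` with `rank_step` (for `m = 0` the bound is `lam ≤ 1`,
`0 ≤ lam`, `x ^ 0 / 0! = 1`) gives `lam (rk a) ≤ lam (redm (rk a) p q) + x ^ (2 m) / m!` for all `m`,
and `x ^ (2 m) / m! = (x ^ 2) ^ m / m! → 0` (`FloorSemiring.tendsto_pow_div_factorial_atTop`).
`rank_pd`: `pair_bound` and `rank_red`, for the pair ordered by the size of `a` (`pd` is symmetric,
`mass ≥ 0`).
`rank_mono`: the path `c t = (1 - t) a + t b`, `t ∈ [0, 1]`; the derivatives `B u v` of the couplings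
are `≥ 0`, so by `slope_path`, `en_defect_sum` and `rank_pd` the slope is at most `0`;
`image_le_of_liminf_slope_right_le_deriv_boundary`.
-/

set_option autoImplicit false

namespace Pool.Agent.Lib.MP_f82811_pr.OP

open Finset HT

variable {V : Type*} [Fintype V] [DecidableEq V]

theorem rank_iter [Nonempty V] (m : ℕ) : ∀ a : V → ℝ, (∀ v, 0 ≤ a v) → ∀ p q : V, p ≠ q →
    a q ≤ a p →
      lam (rk a) ≤ lam (redm (rk a) p q) + (∑ v, a v) ^ (2 * m) / (m.factorial : ℝ) := by
  induction m with
  | zero =>
    intro a _ p q _ _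
    have h1 := lam_le_one (rk a)
    have h2 := lam_nonneg (redm (rk a) p q)
    simp only [mul_zero, pow_zero, Nat.factorial_zero, Nat.cast_one, div_one]
    linarith
  | succ m ih =>
    intro a ha p q hpq hle
    exact rank_step m ih a ha hpq hle

theorem rank_red [Nonempty V] {a : V → ℝ} (ha : ∀ v, 0 ≤ a v) {p q : V} (hpq : p ≠ q)
    (hle : a q ≤ a p) : lam (rk a) ≤ lam (redm (rk a) p q) := by
  have h1 : Filter.Tendsto (fun m : ℕ => lam (redm (rk a) p q) +
      ((∑ v, a v) ^ 2) ^ m / (m.factorial : ℝ)) Filter.atTop
      (nhds (lam (redm (rk a) p q) + 0)) :=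
    (FloorSemiring.tendsto_pow_div_factorial_atTop _).const_add _
  rw [add_zero] at h1
  refine ge_of_tendsto' h1 fun m => ?_
  have h2 := rank_iter m a ha p q hpq hle
  rwa [pow_mul] at h2

theorem rank_mass {w : (V → Bool) → ℝ} (hw : ∀ σ, 0 < w σ) (p q : V) (f : (V → Bool) → ℝ) :
    0 ≤ mass w p q f := by
  unfold mass
  exact Finset.sum_nonneg fun σ _ => mul_nonneg (hw σ).le (mul_self_nonneg _)

theorem rank_pd_symm (w f : (V → Bool) → ℝ) (p q : V) : pd w f p q = pd w f q p := by
  unfold pd
  refine Finset.sum_congr rfl fun σ _ => ?_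
  ring

theorem rank_pd [Nonempty V] {a : V → ℝ} (ha : ∀ v, 0 ≤ a v) {p q : V} (hpq : p ≠ q)
    {f : (V → Bool) → ℝ} (hodd : Odd' f) (hmono : Monotone f)
    (heig : ceSum (W (rk a)) f = fun σ => ((Fintype.card V : ℝ) - lam (rk a)) * f σ) :
    0 ≤ pd (W (rk a)) f p q := by
  rcases le_total (a q) (a p) with h | h
  · have h1 := pair_bound (coup_rk ha) hpq hodd hmono heig
    have h2 := rank_red ha hpq h
    have h3 := rank_mass (W_pos (rk a)) p q f
    refine le_trans ?_ h1
    exact mul_nonneg (by linarith) h3
  · rw [rank_pd_symm]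
    have h1 := pair_bound (coup_rk ha) hpq.symm hodd hmono heig
    have h2 := rank_red ha hpq.symm h
    have h3 := rank_mass (W_pos (rk a)) q p f
    refine le_trans ?_ h1
    exact mul_nonneg (by linarith) h3

theorem rank_mono [Nonempty V] {a b : V → ℝ} (ha : ∀ v, 0 ≤ a v) (hab : ∀ v, a v ≤ b v) :
    lam (rk b) ≤ lam (rk a) := by
  set c : ℝ → V → ℝ := fun t v => a v + t * (b v - a v) with hc
  have hc0 : ∀ t, 0 ≤ t → ∀ v, 0 ≤ c t v := by
    intro t ht v
    have h1 := ha v
    have h2 := hab v
    have : 0 ≤ t * (b v - a v) := mul_nonneg ht (by linarith)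
    simp only [hc]
    linarith
  have hcont : ContinuousOn (fun t => lam (rk (c t))) (Set.Icc 0 1) := by
    apply cont_path (A := fun t => rk (c t)) (fun t ht => coup_rk (hc0 t ht.1))
    intro u v
    unfold rk
    by_cases huv : u = v
    · simp only [huv, if_true]
      exact continuousOn_const
    · simp only [huv, if_false, hc]
      apply Continuous.continuousOn
      fun_prop
  have hbound : ∀ x ∈ Set.Ico (0:ℝ) 1, ∀ r, (0:ℝ) < r →
      ∃ᶠ z in nhdsWithin x (Set.Ioi x), slope (fun t => lam (rk (c t))) x z < r := by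
    intro t ht r hr
    apply Filter.Eventually.frequently
    obtain ⟨f, hodd, hmono, hone, heig, -⟩ := exists_slow (coup_rk (hc0 t ht.1))
    set B : V → V → ℝ := fun u v => if u = v then 0 else
      (b u - a u) * c t v + c t u * (b v - a v) with hB
    refine slope_path (A := fun t => rk (c t)) (B := B) (t := t) ?_ hodd hone heig ?_
    · intro u v
      unfold rk
      by_cases huv : u = v
      · simp only [huv, if_true, hB]
        exact hasDerivAt_const _ _
      · simp only [huv, if_false, hB]
        have h1 : ∀ w, HasDerivAt (fun s => c s w) (b w - a w) t := by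
          intro w
          simp only [hc]
          have := ((hasDerivAt_id t).mul_const (b w - a w)).const_add (a w)
          simpa using this
        exact (h1 u).mul (h1 v)
    · rw [en_defect_sum]
      have h1 : 0 ≤ ∑ u, ∑ v, B u v * pd (W (rk (c t))) f u v := by
        refine Finset.sum_nonneg fun u _ => Finset.sum_nonneg fun v _ => ?_
        by_cases huv : u = v
        · simp only [hB, huv, if_true, zero_mul]
          exact le_rfl
        · apply mul_nonneg
          · simp only [hB, huv, if_false]
            have h2 := hc0 t ht.1 u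
            have h3 := hc0 t ht.1 v
            have h4 := hab u
            have h5 := hab v
            exact add_nonneg (mul_nonneg (by linarith) h3) (mul_nonneg h2 (by linarith))
          · exact rank_pd (hc0 t ht.1) huv hodd hmono heig
      linarith
  have h := image_le_of_liminf_slope_right_le_deriv_boundary (f := fun t => lam (rk (c t)))
    (a := 0) (b := 1) hcont (B := fun _ => lam (rk (c 0))) (B' := fun _ => 0) le_rfl
    continuousOn_const (fun x _ => hasDerivWithinAt_const _ _ _) hbound
    (x := 1) (by constructor <;> norm_num)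
  have e1 : c 1 = b := by
    funext v
    simp only [hc]
    ring
  have e0 : c 0 = a := by
    funext v
    simp only [hc]
    ring
  simp only [e1, e0] at h
  exact h

end Pool.Agent.Lib.MP_f82811_pr.OP
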