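import Pool.Agent.Lib.MP_f82811_pr.OP.Crit
import Pool.Agent.Lib.MP_f82811_pr.OP.Rank
import Pool.Agent.Lib.MP_f82811_pr.OP.Closing

/-!
# Raising the coupling of one pair

Let `J₀` be the reduced couplings of the pair `k, l`: the vertex `l` is isolated, `k` feels
`J_kv - J_lv`, all other couplings are kept. On the event `σ_k ≠ σ_l` the model with couplings `J`
looks like the model with couplings `J₀`. If the gap for `J` is at most the gap for `J₀`, raising the
coupling of the pair never raises the gap. This comparison holds for the rank one couplings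
`J_uv = a_u a_v` and all pairs, so that the gap is also nonincreasing in every `a_v`, and for the
closing of a triangle at a vertex of two bridges.
-/

set_option autoImplicit false

namespace Pool.Agent.Lib.MP_f82811_pr.OP.Pairs

open Pool.Agent.Lib.MP_f82811_pr

/-- `J₀` is the family of reduced couplings of the pair `k, l`. -/
def IsReduced {V : Type} (J J₀ : Sym2 V → ℝ) (k l : V) : Prop :=
  (∀ v, J₀ s(l, v) = 0) ∧ (∀ v, v ≠ k → v ≠ l → J₀ s(k, v) = J s(k, v) - J s(l, v)) ∧
    ∀ u v, u ≠ k → u ≠ l → v ≠ k → v ≠ l → J₀ s(u, v) = J s(u, v)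

open OP HT in
theorem mat_reduced {V : Type} [DecidableEq V] {J J₀ : Sym2 V → ℝ} {k l : V} (hkl : k ≠ l)
    (h : IsReduced J J₀ k l) :
    mat (⊤ : SimpleGraph V) J₀ = redm (mat (⊤ : SimpleGraph V) J) k l := by
  funext u v
  rw [mat_top]
  unfold redm
  by_cases huv : u = v
  · rw [if_pos huv, if_pos (Or.inr (Or.inr huv))]
  rw [if_neg huv]
  by_cases hul : u = l
  · subst hul
    rw [if_pos (Or.inl rfl)]
    exact h.1 v
  by_cases hvl : v = l
  · subst hvl
    rw [if_pos (Or.inr (Or.inl rfl)), Sym2.eq_swap]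
    exact h.1 u
  rw [if_neg (by tauto)]
  by_cases huk : u = k
  · subst huk
    rw [if_pos rfl, mat_top, mat_top, if_neg huv, if_neg (fun e => hvl e.symm)]
    exact h.2.1 v (fun e => huv e.symm) hvl
  rw [if_neg huk]
  by_cases hvk : v = k
  · subst hvk
    rw [if_pos rfl, mat_top, mat_top, if_neg huv, if_neg hul, Sym2.eq_swap,
      h.2.1 u huv hul, Sym2.eq_swap, Sym2.eq_swap (a := l) (b := u)]
  rw [if_neg hvk, mat_top, if_neg huv]
  exact h.2.2 u v huk hul hvk hvl

/-- Comparison of the gaps from comparison of `lam`. -/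
theorem gap_le {V : Type} [Fintype V] [DecidableEq V] [Nonempty V] {J J' : Sym2 V → ℝ}
    (h : OP.lam (HT.mat (⊤ : SimpleGraph V) J) ≤ OP.lam (HT.mat (⊤ : SimpleGraph V) J')) :
    gap (gibbs ⊤ J) ≤ gap (gibbs ⊤ J') := by
  rw [OP.lam_mat, OP.lam_mat] at h
  exact le_of_mul_le_mul_left h (by exact_mod_cast Fintype.card_pos)

/-- Comparison of `lam` from comparison of the gaps. -/
theorem lam_le {V : Type} [Fintype V] [DecidableEq V] {J J' : Sym2 V → ℝ}
    (h : gap (gibbs ⊤ J) ≤ gap (gibbs ⊤ J')) :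
    OP.lam (HT.mat (⊤ : SimpleGraph V) J) ≤ OP.lam (HT.mat (⊤ : SimpleGraph V) J') := by
  rw [OP.lam_mat, OP.lam_mat]
  exact mul_le_mul_of_nonneg_left h (Nat.cast_nonneg _)

/-- The criterion in terms of matrices. -/
theorem crit {V : Type} [Fintype V] [DecidableEq V] {J : Sym2 V → ℝ} {k l : V}
    (hJ : HT.Coup (HT.mat (⊤ : SimpleGraph V) J)) (hkl : k ≠ l)
    (h : OP.lam (HT.mat (⊤ : SimpleGraph V) J) ≤
      OP.lam (OP.redm (HT.mat (⊤ : SimpleGraph V) J) k l)) {x y : ℝ} (hx : J s(k, l) ≤ x)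
    (hxy : x ≤ y) :
    gap (gibbs ⊤ (Function.update J s(k, l) y)) ≤
      gap (gibbs ⊤ (Function.update J s(k, l) x)) := by
  have : Nonempty V := ⟨k⟩
  apply gap_le
  rw [OP.mat_update J hkl, OP.mat_update J hkl]
  exact OP.criterion hJ hkl h (by linarith) (by linarith)

theorem mat_rk {V : Type} [DecidableEq V] {a : V → ℝ} {J : Sym2 V → ℝ}
    (hJ : ∀ u v, u ≠ v → J s(u, v) = a u * a v) :
    HT.mat (⊤ : SimpleGraph V) J = OP.rk a := by
  funext u v
  rw [OP.mat_top]
  unfold OP.rk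
  by_cases h : u = v
  · rw [if_pos h, if_pos h]
  · rw [if_neg h, if_neg h, hJ u v h]

/-- `J` is the family of rank one couplings `a_u a_v`. -/
def IsRankOne {V : Type} (a : V → ℝ) (J : Sym2 V → ℝ) : Prop :=
  ∀ u v, u ≠ v → J s(u, v) = a u * a v

/-- The edges with `J_e > 0` contain the bridges `k z` and `l z`, `z` is the only neighbour of `l`,
and `J_lz ≤ J_kz`. -/
def IsCorner {V : Type} (J : Sym2 V → ℝ) (k l z : V) : Prop :=
  ∃ G : SimpleGraph V, (∀ e, e ∉ G.edgeSet → J e = 0) ∧ G.Adj k z ∧ G.Adj l z ∧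
    G.IsBridge s(k, z) ∧ G.IsBridge s(l, z) ∧ (∀ u, G.Adj l u → u = z) ∧ J s(l, z) ≤ J s(k, z)

/-- Let `0 ≤ J` and let `J'` be `J₁` with the coupling of one pair `k, l` raised. Then the gap for
`J'` is at most the gap for `J` if `J₁ = J` and the gap for `J` is at most the gap for its reduced
couplings, or if `J` and `J₁` are rank one with `a ≤ b`, or if `J₁ = J` and `k, l` are neighbours of
a vertex `z` through bridges, `l` a leaf, `J_lz ≤ J_kz`. -/
theorem pair_raise : ∀ (V : Type) [Fintype V] [DecidableEq V] (J J₁ J' : Sym2 V → ℝ) (k l : V),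
    (∀ e, 0 ≤ J e) → k ≠ l → (∀ e, e ≠ s(k, l) → J' e = J₁ e) → J₁ s(k, l) ≤ J' s(k, l) →
    ((J₁ = J ∧ ∃ J₀, IsReduced J J₀ k l ∧ gap (gibbs ⊤ J) ≤ gap (gibbs ⊤ J₀)) ∨
      (∃ a b : V → ℝ, (∀ v, 0 ≤ a v) ∧ (∀ v, a v ≤ b v) ∧ IsRankOne a J ∧ IsRankOne b J₁) ∨
      (J₁ = J ∧ ∃ z, IsCorner J k l z)) →
    gap (gibbs ⊤ J') ≤ gap (gibbs ⊤ J) := by
  intro V _ _ J J₁ J' k l hJ hkl hne hle h
  have : Nonempty V := ⟨k⟩
  have hJ' : J' = Function.update J₁ s(k, l) (J' s(k, l)) := by
    funext e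
    by_cases he : e = s(k, l)
    · rw [he, Function.update_self]
    · rw [Function.update_of_ne he, hne e he]
  rcases h with ⟨h1, J₀, hred, hgap⟩ | ⟨a, b, ha, hab, hJa, hJb⟩ | ⟨h1, z, G, hJ0, hkz, hlz, hk, hl,
    hleaf, hz⟩
  · subst h1
    have hl : OP.lam (HT.mat (⊤ : SimpleGraph V) J₁) ≤
        OP.lam (OP.redm (HT.mat (⊤ : SimpleGraph V) J₁) k l) := by
      rw [← mat_reduced hkl hred]
      exact lam_le hgap
    have h2 := crit (HT.coup_mat _ fun e _ => hJ e) hkl hl (le_refl _) hle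
    rw [← hJ', Function.update_eq_self] at h2
    exact h2
  · have hb : ∀ v, 0 ≤ b v := fun v => (ha v).trans (hab v)
    have h1 : gap (gibbs ⊤ J₁) ≤ gap (gibbs ⊤ J) := by
      apply gap_le
      rw [mat_rk hJa, mat_rk hJb]
      exact OP.rank_mono ha hab
    refine le_trans ?_ h1
    have h3 : ∀ p q : V, p ≠ q → s(p, q) = s(k, l) → b q ≤ b p →
        gap (gibbs ⊤ J') ≤ gap (gibbs ⊤ J₁) := by
      intro p q hpq hs hbp
      have h2 := crit (J := J₁) (by rw [mat_rk hJb]; exact OP.coup_rk hb) hpq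
        (by rw [mat_rk hJb]; exact OP.rank_red hb hpq hbp) (le_refl _)
        (show J₁ s(p, q) ≤ J' s(k, l) by rw [hs]; exact hle)
      rw [hs, ← hJ', Function.update_eq_self] at h2
      exact h2
    rcases le_total (b l) (b k) with h | h
    · exact h3 k l hkl rfl h
    · exact h3 l k (Ne.symm hkl) Sym2.eq_swap h
  · subst h1
    classical
    have hmat : HT.mat (⊤ : SimpleGraph V) J₁ = HT.mat G J₁ := by
      funext u v
      rw [OP.mat_top]
      unfold HT.mat
      by_cases huv : u = v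
      · subst huv
        rw [if_pos rfl, if_neg (G.irrefl)]
      · rw [if_neg huv]
        by_cases h : G.Adj u v
        · rw [if_pos h]
        · rw [if_neg h]
          exact hJ0 _ h
    have h2 := crit (J := J₁) (by rw [hmat]; exact HT.coup_mat G fun e _ => hJ e) hkl
      (by rw [hmat]; exact OP.closing G (fun e _ => hJ e) hkl hkz hlz hk hl hleaf hz)
      (le_refl _) hle
    rw [← hJ', Function.update_eq_self] at h2
    exact h2

end Pool.Agent.Lib.MP_f82811_pr.OP.Pairs
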