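import Pool.Agent.Lib.MP_f82811_pr.OP.PairB
import Pool.Agent.Lib.MP_f82811_pr.OP.Cont
import Pool.Agent.Lib.MP_f82811_pr.OP.Slope

/-!
# OrderedPairs, module RankStep

Proof of `rank_step`. If `a q = 0` then `rk a = redm (rk a) p q` (both have no coupling at `q`), so the
two sides of the conclusion without the last term are equal; in general put for `t ∈ [0, 1]`
`c t = a` with entry `a p - (1 - t) * a q` at `p` and `t * a q` at `q`. All entries are `≥ 0`,
`c 1 = a`, `rk (c 0) = redm (rk a) p q`, and `redm (rk (c t)) p q = redm (rk a) p q` for all `t`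
(`c p - c q` does not depend on `t`). Let `s t = ∑ v, c t v = (∑ v, a v) - 2 (1 - t) a q`.
`φ t = lam (rk (c t))` is continuous. The derivative of the coupling `c u * c v` is
`B u v = c'_u c_v + c_u c'_v` for `u ≠ v` with `c' = a q` at `p, q` and `0` elsewhere, `B v v = 0`,
`0 ≤ B u v` and `∑ u, ∑ v, B u v ≤ 2 * (2 * a q) * s t`. Every `pd` at `rk (c t)` is at least
`- 2 * (s t) ^ (2 m) / m!`: by `pair_bound'`, and by the hypothesis `ih` for the pair `u, v` ordered
such that `c t v ≤ c t u` (`pd` is symmetric). So by `slope_path` and `en_defect_sum` the slope is at most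
`(∑ u, ∑ v, B u v) * (s t) ^ (2 m) / m! ≤ 4 * a q * (s t) ^ (2 m + 1) / m!`, which is the derivative of
`b t = lam (redm (rk a) p q) + ((s t) ^ (2 (m + 1)) - (s 0) ^ (2 (m + 1))) / (m + 1)!`.
`image_le_of_liminf_slope_right_le_deriv_boundary` gives `φ 1 ≤ b 1`, and `0 ≤ s 0`.
-/

set_option autoImplicit false

namespace Pool.Agent.Lib.MP_f82811_pr.OP

open Finset HT

variable {V : Type*} [Fintype V] [DecidableEq V]

/-- The derivative of the path. -/
noncomputable def ddv (a : V → ℝ) (p q v : V) : ℝ :=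
  (if v = p then a q else 0) + (if v = q then a q else 0)

/-- The path from the reduced system to the system. -/
noncomputable def ccv (a : V → ℝ) (p q : V) (t : ℝ) (v : V) : ℝ := a v - (1 - t) * ddv a p q v

/-- The total of the path. -/
noncomputable def ssv (a : V → ℝ) (q : V) (t : ℝ) : ℝ := (∑ v, a v) - (1 - t) * (2 * a q)

/-- The derivative of the couplings. -/
noncomputable def bbv (a : V → ℝ) (p q : V) (t : ℝ) (u v : V) : ℝ :=
  if u = v then 0 else ddv a p q u * ccv a p q t v + ccv a p q t u * ddv a p q v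

omit [Fintype V] in
theorem ddv_nonneg {a : V → ℝ} (ha : ∀ v, 0 ≤ a v) (p q v : V) : 0 ≤ ddv a p q v := by
  unfold ddv
  have h1 := ha q
  split_ifs <;> linarith

omit [Fintype V] in
theorem ccv_nonneg {a : V → ℝ} (ha : ∀ v, 0 ≤ a v) {p q : V} (hpq : p ≠ q) (hle : a q ≤ a p)
    {t : ℝ} (h0 : 0 ≤ t) (h1 : t ≤ 1) (v : V) : 0 ≤ ccv a p q t v := by
  unfold ccv ddv
  have hq := ha q
  have hv := ha v
  by_cases hp : v = p
  · subst hp
    rw [if_pos rfl, if_neg hpq, add_zero]
    nlinarith
  · rw [if_neg hp, zero_add]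
    by_cases hvq : v = q
    · subst hvq
      rw [if_pos rfl]
      nlinarith
    · rw [if_neg hvq, mul_zero, sub_zero]
      exact hv

omit [Fintype V] in
theorem ccv_one (a : V → ℝ) (p q : V) : ccv a p q 1 = a := by
  funext v
  unfold ccv
  ring

theorem sum_ddv (a : V → ℝ) (p q : V) : ∑ v, ddv a p q v = 2 * a q := by
  unfold ddv
  rw [Finset.sum_add_distrib, Finset.sum_ite_eq' Finset.univ p, Finset.sum_ite_eq' Finset.univ q,
    if_pos (Finset.mem_univ _), if_pos (Finset.mem_univ _)]
  ring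

theorem sum_ccv (a : V → ℝ) (p q : V) (t : ℝ) : ∑ v, ccv a p q t v = ssv a q t := by
  unfold ccv ssv
  rw [Finset.sum_sub_distrib, ← Finset.mul_sum, sum_ddv]

omit [Fintype V] in
theorem rk_ccv_zero (a : V → ℝ) {p q : V} (hpq : p ≠ q) :
    rk (ccv a p q 0) = redm (rk a) p q := by
  have hp : ccv a p q 0 p = a p - a q := by
    unfold ccv ddv
    rw [if_pos rfl, if_neg hpq]
    ring
  have hq : ccv a p q 0 q = 0 := by
    unfold ccv ddv
    rw [if_pos rfl, if_neg hpq.symm]
    ring
  have ho : ∀ v, v ≠ p → v ≠ q → ccv a p q 0 v = a v := by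
    intro v h1 h2
    unfold ccv ddv
    rw [if_neg h1, if_neg h2]
    ring
  funext u v
  unfold redm
  by_cases h1 : u = q ∨ v = q ∨ u = v
  · rw [if_pos h1]
    unfold rk
    rcases h1 with rfl | rfl | h1
    · split_ifs
      · rfl
      · rw [hq, zero_mul]
    · split_ifs
      · rfl
      · rw [hq, mul_zero]
    · rw [if_pos h1]
  · rw [if_neg h1]
    push Not at h1
    obtain ⟨huq, hvq, huv⟩ := h1
    by_cases hup : u = p
    · subst hup
      rw [if_pos rfl]
      unfold rk
      rw [if_neg huv, if_neg huv, if_neg (Ne.symm hvq), hp, ho v (Ne.symm huv) hvq]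
      ring
    · rw [if_neg hup]
      by_cases hvp : v = p
      · subst hvp
        rw [if_pos rfl]
        unfold rk
        rw [if_neg huv, if_neg huv, if_neg huq, hp, ho u huv huq]
        ring
      · rw [if_neg hvp]
        unfold rk
        rw [if_neg huv, if_neg huv, ho u hup huq, ho v hvp hvq]

omit [Fintype V] in
theorem hasDerivAt_ccv (a : V → ℝ) (p q v : V) (t : ℝ) :
    HasDerivAt (fun s => ccv a p q s v) (ddv a p q v) t := by
  unfold ccv
  have h1 : HasDerivAt (fun s : ℝ => a v - (1 - s) * ddv a p q v) (0 - (0 - 1) * ddv a p q v) t := by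
    refine HasDerivAt.sub (hasDerivAt_const t (a v)) ?_
    exact ((hasDerivAt_const t (1 : ℝ)).sub (hasDerivAt_id t)).mul_const _
  convert h1 using 1
  ring

omit [Fintype V] in
theorem hasDerivAt_rk_ccv (a : V → ℝ) (p q u v : V) (t : ℝ) :
    HasDerivAt (fun s => rk (ccv a p q s) u v) (bbv a p q t u v) t := by
  unfold rk bbv
  by_cases h : u = v
  · simp only [h, if_true]
    exact hasDerivAt_const t (0 : ℝ)
  · simp only [h, if_false]
    exact (hasDerivAt_ccv a p q u t).mul (hasDerivAt_ccv a p q v t)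

omit [Fintype V] in
theorem bbv_nonneg {a : V → ℝ} (ha : ∀ v, 0 ≤ a v) {p q : V} (hpq : p ≠ q) (hle : a q ≤ a p)
    {t : ℝ} (h0 : 0 ≤ t) (h1 : t ≤ 1) (u v : V) : 0 ≤ bbv a p q t u v := by
  unfold bbv
  split_ifs
  · exact le_rfl
  · exact add_nonneg (mul_nonneg (ddv_nonneg ha p q u) (ccv_nonneg ha hpq hle h0 h1 v))
      (mul_nonneg (ccv_nonneg ha hpq hle h0 h1 u) (ddv_nonneg ha p q v))

theorem sum_bbv_le {a : V → ℝ} (ha : ∀ v, 0 ≤ a v) {p q : V} (hpq : p ≠ q) (hle : a q ≤ a p)
    {t : ℝ} (h0 : 0 ≤ t) (h1 : t ≤ 1) :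
    ∑ u, ∑ v, bbv a p q t u v ≤ 4 * a q * ssv a q t := by
  have h2 : ∑ u, ∑ v, bbv a p q t u v ≤
      ∑ u, ∑ v, (ddv a p q u * ccv a p q t v + ccv a p q t u * ddv a p q v) := by
    refine Finset.sum_le_sum fun u _ => Finset.sum_le_sum fun v _ => ?_
    unfold bbv
    split_ifs
    · exact add_nonneg (mul_nonneg (ddv_nonneg ha p q u) (ccv_nonneg ha hpq hle h0 h1 v))
        (mul_nonneg (ccv_nonneg ha hpq hle h0 h1 u) (ddv_nonneg ha p q v))
    · exact le_rfl
  refine h2.trans (le_of_eq ?_)
  simp_rw [Finset.sum_add_distrib, ← Finset.mul_sum, ← Finset.sum_mul, sum_ddv, sum_ccv]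
  ring

theorem pd_symm (w f : (V → Bool) → ℝ) (u v : V) : pd w f u v = pd w f v u := by
  unfold pd
  refine Finset.sum_congr rfl fun σ _ => ?_
  ring

/-- The lower bound of the pair defects at a rank one system. -/
theorem pd_rank_ge [Nonempty V] {K : ℝ} {c : V → ℝ} (hc : ∀ v, 0 ≤ c v) (hK : 0 ≤ K)
    (ih : ∀ p q : V, p ≠ q → c q ≤ c p → lam (rk c) ≤ lam (redm (rk c) p q) + K)
    {u v : V} (huv : u ≠ v) {f : (V → Bool) → ℝ} (hodd : Odd' f) (hmono : Monotone f)
    (hone : ip (W (rk c)) f f = 1)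
    (heig : ceSum (W (rk c)) f = fun σ => ((Fintype.card V : ℝ) - lam (rk c)) * f σ) :
    -(2 * K) ≤ pd (W (rk c)) f u v := by
  rcases le_total (c v) (c u) with h | h
  · have h1 := pair_bound' (coup_rk hc) huv hodd hmono hone heig
    have h2 := ih u v huv h
    have h3 : max 0 (lam (rk c) - lam (redm (rk c) u v)) ≤ K := max_le hK (by linarith)
    linarith
  · have h1 := pair_bound' (coup_rk hc) huv.symm hodd hmono hone heig
    have h2 := ih v u huv.symm h
    have h3 : max 0 (lam (rk c) - lam (redm (rk c) v u)) ≤ K := max_le hK (by linarith)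
    rw [pd_symm]
    linarith

omit [DecidableEq V] in
theorem hasDerivAt_bound (a : V → ℝ) (q : V) (L C : ℝ) (m : ℕ) (t : ℝ) :
    HasDerivAt (fun s => L + ((ssv a q s) ^ (2 * (m + 1)) - C) / ((m + 1).factorial : ℝ))
      (4 * a q * (ssv a q t) ^ (2 * m + 1) / (m.factorial : ℝ)) t := by
  have h1 : HasDerivAt (fun s => ssv a q s) (2 * a q) t := by
    unfold ssv
    have h2 : HasDerivAt (fun s : ℝ => (∑ v, a v) - (1 - s) * (2 * a q))
        (0 - (0 - 1) * (2 * a q)) t := by
      refine HasDerivAt.sub (hasDerivAt_const t _) ?_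
      exact ((hasDerivAt_const t (1 : ℝ)).sub (hasDerivAt_id t)).mul_const _
    convert h2 using 1
    ring
  have h3 := (((h1.pow (2 * (m + 1))).sub_const C).div_const ((m + 1).factorial : ℝ)).const_add L
  refine h3.congr_deriv ?_
  have h4 : ((m + 1).factorial : ℝ) = ((m : ℝ) + 1) * (m.factorial : ℝ) := by
    rw [Nat.factorial_succ]
    push_cast
    ring
  have h5 : (m.factorial : ℝ) ≠ 0 := by
    exact_mod_cast Nat.factorial_ne_zero m
  have h6 : ((m : ℝ) + 1) ≠ 0 := by positivity
  rw [h4, show 2 * (m + 1) - 1 = 2 * m + 1 by omega]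
  push_cast
  field_simp
  ring

theorem rank_step [Nonempty V] (m : ℕ)
    (ih : ∀ a : V → ℝ, (∀ v, 0 ≤ a v) → ∀ p q : V, p ≠ q → a q ≤ a p →
      lam (rk a) ≤ lam (redm (rk a) p q) + (∑ v, a v) ^ (2 * m) / (m.factorial : ℝ))
    (a : V → ℝ) (ha : ∀ v, 0 ≤ a v) {p q : V} (hpq : p ≠ q) (hle : a q ≤ a p) :
    lam (rk a) ≤ lam (redm (rk a) p q) + (∑ v, a v) ^ (2 * (m + 1)) / ((m + 1).factorial : ℝ) := by
  have hcont : ContinuousOn (fun t => lam (rk (ccv a p q t))) (Set.Icc 0 1) := by
    refine cont_path (A := fun t => rk (ccv a p q t)) ?_ ?_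
    · intro t ht
      exact coup_rk (ccv_nonneg ha hpq hle ht.1 ht.2)
    · intro u v
      exact fun t _ => (hasDerivAt_rk_ccv a p q u v t).continuousAt.continuousWithinAt
  have hfac : (0 : ℝ) < ((m + 1).factorial : ℝ) := by exact_mod_cast Nat.factorial_pos _
  have hfac' : (0 : ℝ) < (m.factorial : ℝ) := by exact_mod_cast Nat.factorial_pos _
  have key := image_le_of_liminf_slope_right_le_deriv_boundary
    (f := fun t => lam (rk (ccv a p q t))) (a := 0) (b := 1) hcont
    (B := fun s => lam (redm (rk a) p q) +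
      ((ssv a q s) ^ (2 * (m + 1)) - (ssv a q 0) ^ (2 * (m + 1))) / ((m + 1).factorial : ℝ))
    (B' := fun t => 4 * a q * (ssv a q t) ^ (2 * m + 1) / (m.factorial : ℝ))
    (by
      simp only [sub_self, zero_div, add_zero]
      rw [rk_ccv_zero a hpq])
    (fun t _ => (hasDerivAt_bound a q _ _ m t).continuousAt.continuousWithinAt)
    (fun t _ => (hasDerivAt_bound a q _ _ m t).hasDerivWithinAt)
    (by
      intro t ht r hr
      have hc := ccv_nonneg ha hpq hle ht.1 ht.2.le
      obtain ⟨f, hodd, hmono, hone, heig, _⟩ := exists_slow (coup_rk hc)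
      have hK : 0 ≤ (ssv a q t) ^ (2 * m) / (m.factorial : ℝ) := by
        rw [pow_mul]
        positivity
      have hpd : ∀ u v, u ≠ v →
          -(2 * ((ssv a q t) ^ (2 * m) / (m.factorial : ℝ))) ≤
            pd (W (rk (ccv a p q t))) f u v := by
        intro u v huv
        refine pd_rank_ge hc hK ?_ huv hodd hmono hone heig
        intro p' q' h1 h2
        have h3 := ih (ccv a p q t) hc p' q' h1 h2
        rw [sum_ccv] at h3
        exact h3
      have hs : -∑ σ, W (rk (ccv a p q t)) σ *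
          (en (bbv a p q t) σ * defect (W (rk (ccv a p q t))) f σ) < r := by
        rw [en_defect_sum]
        refine lt_of_le_of_lt ?_ hr
        have h1 : ∑ u, ∑ v, bbv a p q t u v *
            (-(2 * ((ssv a q t) ^ (2 * m) / (m.factorial : ℝ)))) ≤
            ∑ u, ∑ v, bbv a p q t u v * pd (W (rk (ccv a p q t))) f u v := by
          refine Finset.sum_le_sum fun u _ => Finset.sum_le_sum fun v _ => ?_
          by_cases huv : u = v
          · have : bbv a p q t u v = 0 := if_pos huv
            rw [this, zero_mul, zero_mul]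
          · exact mul_le_mul_of_nonneg_left (hpd u v huv)
              (bbv_nonneg ha hpq hle ht.1 ht.2.le u v)
        simp_rw [← Finset.sum_mul] at h1
        have h2 := mul_le_mul_of_nonneg_right (sum_bbv_le ha hpq hle ht.1 ht.2.le) hK
        have h3 : 4 * a q * ssv a q t * ((ssv a q t) ^ (2 * m) / (m.factorial : ℝ)) =
            4 * a q * (ssv a q t) ^ (2 * m + 1) / (m.factorial : ℝ) := by
          rw [pow_succ]
          ring
        rw [h3] at h2
        linarith
      exact (slope_path (A := fun s => rk (ccv a p q s)) (B := bbv a p q t)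
        (fun u v => hasDerivAt_rk_ccv a p q u v t) hodd hone heig hs).frequently)
    (x := 1) ⟨zero_le_one, le_rfl⟩
  simp only [ccv_one] at key
  refine key.trans ?_
  have h1 : ssv a q 1 = ∑ v, a v := by
    unfold ssv
    ring
  rw [h1, add_le_add_iff_left]
  refine div_le_div_of_nonneg_right ?_ hfac.le
  have h2 : 0 ≤ (ssv a q 0) ^ (2 * (m + 1)) := by
    rw [pow_mul]
    positivity
  linarith

end Pool.Agent.Lib.MP_f82811_pr.OP
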